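import Mathlib
import Pool.Agent.U338.SIC.Galois

/-!
# Restricting self-dual sign functions to a coprime factor

`X` and `Y` carry symplectic Fourier kernels `K` and `L`, `F : X × Y → ℤ` has the value `n` at the
origin and `± 1` elsewhere, and `F` is an eigenfunction of the Fourier transform. If `n'` is the
least absolute residue of `n` modulo `2 Q`, then the restriction of `F` to `X`, with the value at
the origin replaced by `n'`, is again an eigenfunction. (This is an analogue of a theorem of S. L. Ma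
on sub-difference sets of partial difference sets.)
-/

set_option autoImplicit false

open Finset ComplexConjugate

namespace Pool.Agent.U338.Inv

/-- symplectic Fourier kernels on a set with `Q ^ 2` elements -/
structure Ker {X : Type*} [Fintype X] [DecidableEq X] (K : X → X → ℂ) (o : X) (Q : ℕ) : Prop where
  left : ∀ x, K o x = 1
  right : ∀ x, K x o = 1
  inv : ∀ x z, ∑ y, K z y * K y x = if x = z then (Q : ℂ) ^ 2 else 0
  herm : ∀ x y, conj (K x y) = K y x
  int : ∀ x y, IsIntegral ℤ (K x y)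

section four

variable {Y : Type*} [Fintype Y] [DecidableEq Y]

/-- a sign function invariant under an involution with a single fixed point has sum `≡ 0 mod 4` -/
theorem four_dvd (M : ℕ) (hM : Odd M) (hcard : Fintype.card Y = M ^ 2) (p : Y) (ν : Y → Y)
    (hνν : ∀ y, ν (ν y) = y) (hνp : ∀ y, ν y = y → y = p) (hp : ν p = p) (f : Y → ℤ)
    (hf : ∀ y, y ≠ p → f y = 1 ∨ f y = -1) (hfν : ∀ y, f (ν y) = f y) :
    (4 : ℤ) ∣ ∑ y, f y - f p := by
  classical
  obtain ⟨i, hi⟩ := hM
  set S : Finset Y := Finset.univ.filter fun y => y ≠ p ∧ f y = -1 with hS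
  have heven : Even S.card := by
    have h1 : ((S.card : ℕ) : ZMod 2) = 0 := by
      have h2 : ∑ y ∈ S, (1 : ZMod 2) = 0 := by
        apply Finset.sum_involution (fun y _ => ν y)
        · intro y _
          decide
        · intro y hy _ h3
          rw [hS, Finset.mem_filter] at hy
          exact hy.2.1 (hνp y h3)
        · intro y hy
          rw [hS, Finset.mem_filter] at hy ⊢
          refine ⟨Finset.mem_univ _, ?_, ?_⟩
          · intro h3
            apply hy.2.1
            rw [← hνν y, h3, hp]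
          · rw [hfν]; exact hy.2.2
        · intro y _
          exact hνν y
      simpa using h2
    exact (ZMod.natCast_eq_zero_iff_even).1 h1
  have hsum : ∑ y, f y - f p = (M : ℤ) ^ 2 - 1 - 2 * S.card := by
    have h1 : ∀ y, f y = 1 + (if y = p then f p - 1 else 0) - 2 * (if y ≠ p ∧ f y = -1 then 1 else 0) := by
      intro y
      by_cases hy : y = p
      · rw [if_pos hy, hy, if_neg (by simp)]; ring
      · rcases hf y hy with h | h
        · rw [if_neg hy, h, if_neg (by norm_num)]; ring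
        · rw [if_neg hy, h, if_pos ⟨hy, rfl⟩]; ring
    have h2 : ∑ y, f y = (M : ℤ) ^ 2 + (f p - 1) - 2 * S.card := by
      rw [Finset.sum_congr rfl fun y _ => h1 y, Finset.sum_sub_distrib, Finset.sum_add_distrib,
        Finset.sum_const, Finset.card_univ, hcard, Finset.sum_ite_eq', if_pos (Finset.mem_univ _),
        ← Finset.mul_sum, ← Finset.sum_filter, Finset.sum_const]
      simp [hS]
    rw [h2]; ring
  rw [hsum]
  obtain ⟨c, hc⟩ := heven
  refine ⟨(i : ℤ) ^ 2 + i - c, ?_⟩
  rw [hi, hc]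
  push_cast
  ring

end four

section ma

variable {X Y : Type*} [Fintype X] [DecidableEq X] [Fintype Y] [DecidableEq Y]

theorem ma {K : X → X → ℂ} {o : X} {Q : ℕ} (hK : Ker K o Q)
    {L : Y → Y → ℂ} {p : Y} {M : ℕ} (hL : Ker L p M)
    (hQ : Odd Q) (hM : Odd M) (hco : Nat.Coprime M Q) (hcard : Fintype.card Y = M ^ 2)
    (ν : Y → Y) (hνν : ∀ y, ν (ν y) = y) (hνp : ∀ y, ν y = y → y = p) (hpν : ν p = p)
    (F : X → Y → ℤ) (hF : ∀ v s, (v ≠ o ∨ s ≠ p) → F v s = 1 ∨ F v s = -1)
    (hFν : ∀ v s, F v (ν s) = F v s) (ε : ℤ) (hε : ε = 1 ∨ ε = -1)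
    (hdual : ∀ v s, ∑ w, ∑ r, K v w * L s r * (F w r : ℂ) = (ε * Q * M : ℤ) * (F v s : ℂ))
    (n' j : ℤ) (hn : F o p = n' + 2 * j * Q) (hn' : |n'| < Q) :
    (∃ ε' : ℤ, (ε' = 1 ∨ ε' = -1) ∧ ∀ v, ∑ w, K v w * ((if w = o then n' else F w p : ℤ) : ℂ) =
      (ε' * Q : ℤ) * ((if v = o then n' else F v p : ℤ) : ℂ)) ∧ (Odd (F o p) → Even j) := by
  classical
  have hM0 : M ≠ 0 := by rintro rfl; exact absurd hM (by decide)
  have hQ0 : Q ≠ 0 := by rintro rfl; exact absurd hQ (by decide)
  have hMC : (M : ℂ) ≠ 0 := by exact_mod_cast hM0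
  have hQC : (Q : ℂ) ≠ 0 := by exact_mod_cast hQ0
  have hεε : ε * ε = 1 := by rcases hε with h | h <;> rw [h] <;> norm_num
  -- Step 1
  have hLs : ∀ r, ∑ s, L s r = if r = p then (M : ℂ) ^ 2 else 0 := by
    intro r
    have := hL.inv r p
    simp_rw [hL.left, one_mul] at this
    exact this
  have hG0 : ∀ v, (M : ℂ) * ∑ w, K v w * (F w p : ℂ) = (ε * Q : ℤ) * ((∑ s, F v s : ℤ) : ℂ) := by
    intro v
    have h1 : ∑ s, ∑ w, ∑ r, K v w * L s r * (F w r : ℂ) =
        (M : ℂ) ^ 2 * ∑ w, K v w * (F w p : ℂ) := by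
      rw [Finset.sum_comm, Finset.mul_sum]
      refine Finset.sum_congr rfl fun w _ => ?_
      rw [Finset.sum_comm]
      have h2 : ∀ r, ∑ s, K v w * L s r * (F w r : ℂ) =
          if r = p then (M : ℂ) ^ 2 * (K v w * F w p) else 0 := by
        intro r
        have : ∑ s, K v w * L s r * (F w r : ℂ) = (K v w * F w r) * ∑ s, L s r := by
          rw [Finset.mul_sum]
          exact Finset.sum_congr rfl fun s _ => by ring
        rw [this, hLs]
        by_cases h3 : r = p
        · rw [if_pos h3, if_pos h3, h3]; ring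
        · rw [if_neg h3, if_neg h3, mul_zero]
      rw [Finset.sum_congr rfl fun r _ => h2 r, Finset.sum_ite_eq', if_pos (Finset.mem_univ _)]
    have h2 : ∑ s, ∑ w, ∑ r, K v w * L s r * (F w r : ℂ) =
        (ε * Q * M : ℤ) * ((∑ s, F v s : ℤ) : ℂ) := by
      rw [Finset.sum_congr rfl fun s _ => hdual v s]
      push_cast
      rw [Finset.mul_sum]
    apply mul_left_cancel₀ hMC
    calc (M : ℂ) * ((M : ℂ) * ∑ w, K v w * (F w p : ℂ))
        = (M : ℂ) ^ 2 * ∑ w, K v w * (F w p : ℂ) := by ring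
      _ = (ε * Q * M : ℤ) * ((∑ s, F v s : ℤ) : ℂ) := by rw [← h1, h2]
      _ = _ := by push_cast; ring
  have hφ : ∀ v, ∃ φ : ℤ, ∑ s, F v s = M * φ := by
    intro v
    have h1 : ((M : ℕ) : ℤ) ∣ ε * ∑ s, F v s := by
      apply SIC.dvd_of_integral M Q hM0 hco (ε * ∑ s, F v s) (∑ w, K v w * (F w p : ℂ))
      · exact IsIntegral.sum _ fun w _ => (hK.int v w).mul
          (isIntegral_algebraMap (R := ℤ) (x := F w p))
      · rw [hG0]
        push_cast
        ring
    obtain ⟨φ, hφ⟩ := h1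
    refine ⟨ε * φ, ?_⟩
    linear_combination ε * hφ - (∑ s, F v s) * hεε
  choose φ hφ using hφ
  have hG1 : ∀ v, ∑ w, K v w * (F w p : ℂ) = (ε * Q * φ v : ℤ) := by
    intro v
    have h1 := hG0 v
    rw [hφ] at h1
    apply mul_left_cancel₀ hMC
    rw [h1]
    push_cast
    ring
  -- Step 2
  have h4 : ∀ v, (4 : ℤ) ∣ M * φ v - F v p := by
    intro v
    rw [← hφ]
    exact four_dvd M hM hcard p ν hνν hνp hpν (F v) (fun y hy => hF v y (Or.inr hy)) (hFν v)
  -- Step 3
  set g : X → ℤ := fun w => if w = o then n' else F w p with hg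
  have hgo : g o = n' := by simp [hg]
  have hgn : ∀ v, v ≠ o → g v = F v p := fun v hv => by simp [hg, hv]
  set T : X → ℤ := fun v => ε * φ v - 2 * j with hT
  have hTg : ∀ v, ∑ w, K v w * (g w : ℂ) = (Q : ℂ) * T v := by
    intro v
    have h1 : ∀ w, K v w * (g w : ℂ) = K v w * (F w p : ℂ) +
        if w = o then (-(2 * j * Q) : ℂ) else 0 := by
      intro w
      by_cases hw : w = o
      · rw [if_pos hw, hw, hgo, hn, hK.right]
        push_cast
        ring
      · rw [if_neg hw, hgn w hw, add_zero]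
    rw [Finset.sum_congr rfl fun w _ => h1 w, Finset.sum_add_distrib, hG1, Finset.sum_ite_eq',
      if_pos (Finset.mem_univ _)]
    simp only [hT]
    push_cast
    ring
  -- Step 4
  obtain ⟨κ, hκ, hκM⟩ : ∃ κ : ℤ, (κ = 1 ∨ κ = -1) ∧ (4 : ℤ) ∣ κ * M - 1 := by
    obtain ⟨i, hi⟩ := hM
    rcases Nat.even_or_odd' i with ⟨c, hc | hc⟩
    · exact ⟨1, Or.inl rfl, ⟨c, by rw [hi, hc]; push_cast; ring⟩⟩
    · exact ⟨-1, Or.inr rfl, ⟨-(c + 1), by rw [hi, hc]; push_cast; ring⟩⟩
  have hκκ : κ * κ = 1 := by rcases hκ with h | h <;> rw [h] <;> norm_num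
  obtain ⟨ε', hε', hεj⟩ : ∃ ε' : ℤ, (ε' = 1 ∨ ε' = -1) ∧
      ((∃ i, j = 2 * i ∧ ε' = ε * κ) ∨ (∃ i, j = 2 * i + 1 ∧ ε' = -(ε * κ))) := by
    have h1 : ε * κ = 1 ∨ ε * κ = -1 := by
      rcases hε with h | h <;> rcases hκ with h' | h' <;> rw [h, h'] <;> norm_num
    rcases Int.even_or_odd' j with ⟨i, hi | hi⟩
    · exact ⟨ε * κ, h1, Or.inl ⟨i, hi, rfl⟩⟩
    · refine ⟨-(ε * κ), ?_, Or.inr ⟨i, hi, rfl⟩⟩
      rcases h1 with h | h <;> rw [h] <;> norm_num
  have hε'ε' : ε' * ε' = 1 := by rcases hε' with h | h <;> rw [h] <;> norm_num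
  -- `φ v ≡ κ F v p`
  have h5 : ∀ v, (4 : ℤ) ∣ φ v - κ * F v p := by
    intro v
    obtain ⟨a, ha⟩ := h4 v
    obtain ⟨b, hb⟩ := hκM
    refine ⟨κ * a - b * φ v, ?_⟩
    linear_combination κ * ha - (φ v) * hb
  set U : X → ℤ := fun v => T v - ε' * g v with hU
  have hUn : ∀ v, v ≠ o → (4 : ℤ) ∣ U v := by
    intro v hv
    obtain ⟨a, ha⟩ := h5 v
    have hFv := hF v p (Or.inl hv)
    simp only [hU, hT, hgn v hv]
    rcases hεj with ⟨i, hi, he⟩ | ⟨i, hi, he⟩
    · rw [hi, he]
      refine ⟨ε * a - i, ?_⟩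
      linear_combination ε * ha
    · rw [hi, he]
      obtain ⟨b, hb⟩ : ∃ b, ε * κ * F v p = 2 * b + 1 := by
        have h1 : ε * κ * F v p = 1 ∨ ε * κ * F v p = -1 := by
          rcases hε with h | h <;> rcases hκ with h' | h' <;> rcases hFv with h'' | h'' <;>
            rw [h, h', h''] <;> norm_num
        rcases h1 with h | h
        · exact ⟨0, by rw [h]; norm_num⟩
        · exact ⟨-1, by rw [h]; norm_num⟩
      refine ⟨ε * a + b - i, ?_⟩
      linear_combination ε * ha + 2 * hb
  have hUo : (2 : ℤ) ∣ U o := by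
    obtain ⟨a, ha⟩ := h5 o
    simp only [hU, hT, hgo]
    rw [hn] at ha
    obtain ⟨b, hb⟩ : ∃ b, ε * κ - ε' = 2 * b := by
      rcases hεj with ⟨i, hi, he⟩ | ⟨i, hi, he⟩
      · exact ⟨0, by rw [he]; ring⟩
      · exact ⟨ε * κ, by rw [he]; ring⟩
    refine ⟨2 * ε * a + b * n' + ε * κ * j * Q - j, ?_⟩
    linear_combination ε * ha + n' * hb
  -- Step 5
  have hgT : ∀ z, ∑ v, K z v * (T v : ℂ) = (Q : ℂ) * g z := by
    intro z
    have h1 : ∑ v, K z v * ∑ w, K v w * (g w : ℂ) = (Q : ℂ) ^ 2 * g z := by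
      simp_rw [Finset.mul_sum]
      rw [Finset.sum_comm]
      have h2 : ∀ w, ∑ v, K z v * (K v w * (g w : ℂ)) =
          if w = z then (Q : ℂ) ^ 2 * g z else 0 := by
        intro w
        have : ∑ v, K z v * (K v w * (g w : ℂ)) = (∑ v, K z v * K v w) * g w := by
          rw [Finset.sum_mul]
          exact Finset.sum_congr rfl fun v _ => by ring
        rw [this, hK.inv]
        by_cases h3 : w = z
        · rw [if_pos h3, if_pos h3, h3]
        · rw [if_neg h3, if_neg h3, zero_mul]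
      rw [Finset.sum_congr rfl fun w _ => h2 w, Finset.sum_ite_eq', if_pos (Finset.mem_univ _)]
    have h2 : ∑ v, K z v * ∑ w, K v w * (g w : ℂ) = (Q : ℂ) * ∑ v, K z v * (T v : ℂ) := by
      rw [Finset.mul_sum]
      refine Finset.sum_congr rfl fun v _ => ?_
      rw [hTg]; ring
    apply mul_left_cancel₀ hQC
    rw [← h2, h1]; ring
  have hUU : ∀ z, ∑ v, K z v * (U v : ℂ) = -(ε' * Q : ℂ) * U z := by
    intro z
    have h1 : ∀ v, K z v * (U v : ℂ) = K z v * (T v : ℂ) - ε' * (K z v * (g v : ℂ)) := by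
      intro v
      simp only [hU]
      push_cast
      ring
    rw [Finset.sum_congr rfl fun v _ => h1 v, Finset.sum_sub_distrib, ← Finset.mul_sum, hgT, hTg]
    simp only [hU]
    push_cast
    have h2 : (ε' : ℂ) * ε' = 1 := by exact_mod_cast hε'ε'
    linear_combination (-(Q : ℂ) * g z) * h2
  -- Step 6
  have hUT : ∑ v, U v * T v = -ε' * ∑ v, U v * g v := by
    have h1 : (Q : ℂ) * ∑ v, (U v : ℂ) * T v = (Q : ℂ) * (-ε' * ∑ v, (U v : ℂ) * g v) := by
      calc (Q : ℂ) * ∑ v, (U v : ℂ) * T v = ∑ v, (U v : ℂ) * ∑ w, K v w * (g w : ℂ) := by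
            rw [Finset.mul_sum]
            refine Finset.sum_congr rfl fun v _ => ?_
            rw [hTg]; ring
        _ = ∑ w, (g w : ℂ) * ∑ v, K v w * (U v : ℂ) := by
            simp_rw [Finset.mul_sum]
            rw [Finset.sum_comm]
            refine Finset.sum_congr rfl fun w _ => Finset.sum_congr rfl fun v _ => by ring
        _ = ∑ w, (g w : ℂ) * (-(ε' * Q : ℂ) * U w) := by
            refine Finset.sum_congr rfl fun w _ => ?_
            congr 1
            have h2 : conj (∑ v, K v w * (U v : ℂ)) = -(ε' * Q : ℂ) * U w := by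
              rw [map_sum, ← hUU w]
              refine Finset.sum_congr rfl fun v _ => ?_
              rw [map_mul, hK.herm, map_intCast]
            have h3 := congrArg conj h2
            rw [Complex.conj_conj] at h3
            rw [h3]
            simp
        _ = _ := by
            simp_rw [Finset.mul_sum]
            refine Finset.sum_congr rfl fun w _ => by ring
    have h2 := mul_left_cancel₀ hQC h1
    exact_mod_cast h2
  have hU2 : ∑ v, U v ^ 2 = -2 * ε' * ∑ v, U v * g v := by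
    have h1 : ∑ v, U v ^ 2 = ∑ v, U v * T v - ε' * ∑ v, U v * g v := by
      rw [Finset.mul_sum, ← Finset.sum_sub_distrib]
      refine Finset.sum_congr rfl fun v _ => ?_
      simp only [hU]
      ring
    rw [h1, hUT]; ring
  -- Step 7
  have hUs : ∑ v, U v = -(ε' * Q) * U o := by
    have h1 := hUU o
    simp_rw [hK.left, one_mul] at h1
    exact_mod_cast h1
  -- Step 8
  set S1 : ℤ := ∑ v ∈ Finset.univ.erase o, |U v| with hS1
  set S2 : ℤ := ∑ v ∈ Finset.univ.erase o, U v ^ 2 with hS2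
  have h41 : 4 * S1 ≤ S2 := by
    rw [hS1, hS2, Finset.mul_sum]
    refine Finset.sum_le_sum fun v hv => ?_
    obtain ⟨a, ha⟩ := hUn v (Finset.ne_of_mem_erase hv)
    rw [ha, abs_mul, mul_pow]
    have h1 : |a| ≤ a ^ 2 := by
      rcases eq_or_ne a 0 with h | h
      · rw [h]; simp
      · have h2 : 1 ≤ |a| := Int.one_le_abs h
        nlinarith [sq_abs a]
    norm_num
    nlinarith
  have hsum2 : S2 + U o ^ 2 ≤ 2 * S1 + 2 * (|U o| * |n'|) := by
    have h1 : ∑ v, U v ^ 2 = S2 + U o ^ 2 := by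
      rw [hS2, Finset.sum_erase_add _ _ (Finset.mem_univ o)]
    have h2 : ∑ v, U v * g v = ∑ v ∈ Finset.univ.erase o, U v * g v + U o * n' := by
      rw [← Finset.sum_erase_add _ _ (Finset.mem_univ o), hgo]
    have h3 : |∑ v ∈ Finset.univ.erase o, U v * g v| ≤ S1 := by
      refine (Finset.abs_sum_le_sum_abs _ _).trans (Finset.sum_le_sum fun v hv => ?_)
      have hvo := Finset.ne_of_mem_erase hv
      rw [hgn v hvo, abs_mul]
      rcases hF v p (Or.inl hvo) with h | h <;> rw [h] <;> simp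
    have h4 : -ε' * ∑ v, U v * g v ≤ S1 + |U o| * |n'| := by
      calc -ε' * ∑ v, U v * g v ≤ |-ε' * ∑ v, U v * g v| := le_abs_self _
        _ = |∑ v, U v * g v| := by
            rw [abs_mul, abs_neg]
            rcases hε' with h | h <;> rw [h] <;> simp
        _ ≤ S1 + |U o| * |n'| := by
            rw [h2]
            refine (abs_add_le _ _).trans ?_
            rw [abs_mul]
            linarith
    rw [← h1, hU2]
    linarith
  have hS1ge : ((Q : ℤ) - 1) * |U o| ≤ S1 := by
    have h1 : ∑ v ∈ Finset.univ.erase o, U v = -(1 + ε' * Q) * U o := by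
      have h2 := Finset.sum_erase_add Finset.univ U (Finset.mem_univ o)
      rw [hUs] at h2
      linarith
    calc ((Q : ℤ) - 1) * |U o| ≤ |(1 + ε' * Q)| * |U o| := by
          apply mul_le_mul_of_nonneg_right _ (abs_nonneg _)
          rcases hε' with h | h
          · rw [h]
            refine le_trans ?_ (le_abs_self _)
            linarith
          · rw [h]
            refine le_trans ?_ (neg_abs_le _ |> fun h => (neg_le.1 h))
            linarith
      _ = |∑ v ∈ Finset.univ.erase o, U v| := by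
          rw [h1, abs_mul, abs_neg]
      _ ≤ S1 := Finset.abs_sum_le_sum_abs _ _
  have hUo0 : U o = 0 := by
    by_contra hne
    have h1 : 2 ≤ |U o| := by
      obtain ⟨a, ha⟩ := hUo
      rw [ha, abs_mul]
      have : 1 ≤ |a| := Int.one_le_abs (by rintro rfl; exact hne (by rw [ha, mul_zero]))
      norm_num
      linarith
    have h2 : |U o| ^ 2 = U o ^ 2 := sq_abs _
    nlinarith
  have hS20 : S2 ≤ 0 := by
    rw [hUo0] at hsum2
    simp at hsum2
    nlinarith [Finset.sum_nonneg (s := Finset.univ.erase o) (f := fun v => |U v|)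
      (fun v _ => abs_nonneg _)]
  have hU0 : ∀ v, U v = 0 := by
    intro v
    by_cases hv : v = o
    · rw [hv]; exact hUo0
    · have h1 : S2 = 0 := le_antisymm hS20 (Finset.sum_nonneg fun v _ => sq_nonneg _)
      rw [hS2] at h1
      have h2 := (Finset.sum_eq_zero_iff_of_nonneg (fun v _ => sq_nonneg (U v))).1 h1 v
        (Finset.mem_erase.2 ⟨hv, Finset.mem_univ _⟩)
      exact pow_eq_zero_iff two_ne_zero |>.1 h2
  refine ⟨⟨ε', hε', fun v => ?_⟩, fun hodd => ?_⟩
  · have h1 := hTg v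
    have h2 : T v = ε' * g v := by
      have := hU0 v
      simp only [hU] at this
      linarith
    rw [h2] at h1
    simp only [hg] at h1 ⊢
    rw [h1]
    push_cast
    ring
  · -- parity of `j`
    by_contra hj
    rcases hεj with ⟨i, hi, he⟩ | ⟨i, hi, he⟩
    · exact hj ⟨i, by rw [hi]; ring⟩
    · have h1 := hU0 o
      simp only [hU, hT, hgo] at h1
      obtain ⟨a, ha⟩ := h5 o
      obtain ⟨b, hb⟩ := hodd
      rw [he, hi] at h1
      rw [hi] at hn
      -- `ε φ = 2 j - ε κ n'`, `φ = κ n + 4 a`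
      have h2 : 2 * (ε * κ) * F o p = 2 * (2 * i + 1) * (1 + ε * κ * Q) - 4 * (ε * a) := by
        linear_combination h1 - ε * ha + (ε * κ) * hn
      have h3 : ε * κ = 1 ∨ ε * κ = -1 := by
        rcases hε with h | h <;> rcases hκ with h' | h' <;> rw [h, h'] <;> norm_num
      obtain ⟨c, hc⟩ := hQ
      rw [hb, hc] at h2
      push_cast at h2
      generalize ε * a = R at h2
      rcases h3 with h | h
      · rw [h] at h2
        have h4 : 2 * b + 1 = 2 * ((2 * i + 1) * (c + 1)) - 2 * R := by linarith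
        generalize (2 * i + 1) * ((c : ℤ) + 1) = P at h4
        omega
      · rw [h] at h2
        have h4 : 2 * b + 1 = 2 * ((2 * i + 1) * c) + 2 * R := by linarith
        generalize (2 * i + 1) * (c : ℤ) = P at h4
        omega

end ma

end Pool.Agent.U338.Inv
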