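import Mathlib
import Pool.Agent.U338.Inv.Ma
import Pool.Agent.R848.SIC.Ram
import Pool.Agent.R848.SIC.Comb

/-!
# The case of two prime powers

The combinatorial inputs `R848.SIC.key_bound` and `R848.SIC.ramanujan` are those of
`Pool.Agent.R848.SIC`.
-/

set_option autoImplicit false
set_option linter.unusedSectionVars false

open Finset ComplexConjugate

namespace Pool.Agent.U338.Inv

/-- numerical endgame -/
theorem pair_num (Q M n σ ν : ℤ) (hM : 3 ≤ M) (hQ : M + 2 ≤ Q) (hσ : σ = 1 ∨ σ = -1)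
    (hn : n = σ + Q * ν) (hpos : 0 < n) (hlt : n < Q * M) (hModd : Odd M)
    (heven : Even n) (hMn : M ∣ n + σ)
    (hineq : Q * M ^ 2 ≤ 4 * (M ^ 2 - 1) + Q * ν ^ 2 + max 0 (4 * σ * ν + 4)) : False := by
  -- `ν` is odd and at least one
  have hνodd : Odd ν := by
    by_contra h
    rw [Int.not_odd_iff_even] at h
    have h1 : Even (Q * ν) := h.mul_left Q
    have h2 : Odd σ := by rcases hσ with h | h <;> rw [h] <;> decide
    have : Odd n := by rw [hn]; exact h2.add_even h1
    exact (Int.not_odd_iff_even.2 heven) this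
  have hν1 : 1 ≤ ν := by
    have h0 : 0 ≤ ν := by
      by_contra h
      push Not at h
      have : ν ≤ -1 := by omega
      rcases hσ with h | h <;> rw [h] at hn <;> nlinarith
    obtain ⟨i, hi⟩ := hνodd
    omega
  -- `ν ≤ M - 2`
  have hνM : ν ≤ M - 2 := by
    have h1 : ν ≤ M := by
      by_contra h
      push Not at h
      rcases hσ with h | h <;> rw [h] at hn <;> nlinarith
    have h2 : ν ≠ M := by
      rintro rfl
      rcases hσ with h | h
      · rw [h] at hn; linarith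
      · rw [hn, h] at hMn
        have h3 : ν ∣ 2 := by
          have h4 : ν ∣ Q * ν := Dvd.intro_left _ rfl
          have h5 := dvd_sub h4 hMn
          have e1 : Q * ν - (-1 + Q * ν + -1) = 2 := by ring
          rwa [e1] at h5
        have := Int.le_of_dvd (by norm_num) h3
        linarith
    obtain ⟨i, hi⟩ := hνodd
    obtain ⟨k, hk⟩ := hModd
    omega
  rcases hσ with h | h
  · rw [h] at hineq hn hMn
    have hmax : max 0 (4 * 1 * ν + 4) = 4 * ν + 4 := by
      rw [max_eq_right] <;> linarith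
    rw [hmax] at hineq
    -- `Q (M - ν) (M + ν) ≤ 4 (M ^ 2 + ν)`
    have h1 : Q * ((M - ν) * (M + ν)) ≤ 4 * (M ^ 2 + ν) := by nlinarith
    have hpos' : 0 < (M - ν) * (M + ν) := mul_pos (by linarith) (by linarith)
    have h2 : (M + 2) * ((M - ν) * (M + ν)) ≤ 4 * (M ^ 2 + ν) :=
      (mul_le_mul_of_nonneg_right hQ hpos'.le).trans h1
    have hν2 : ν = M - 2 := by
      by_contra hne
      have h3 : ν ≤ M - 4 := by
        obtain ⟨i, hi⟩ := hνodd
        obtain ⟨k, hk⟩ := hModd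
        omega
      have h4 : 8 * (M - 2) ≤ (M - ν) * (M + ν) := by nlinarith
      nlinarith
    have hQ2 : Q = M + 2 := by
      by_contra hne
      have h3 : M + 3 ≤ Q := by omega
      rw [hν2] at h1
      nlinarith
    rw [hν2, hQ2] at hn
    have h3 : M ∣ 2 := by
      have h4 : M ∣ M * M := Dvd.intro _ rfl
      have h5 := dvd_sub h4 hMn
      have e1 : M * M - (n + 1) = 2 := by rw [hn]; ring
      rwa [e1] at h5
    have := Int.le_of_dvd (by norm_num) h3
    linarith
  · rw [h] at hineq hn hMn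
    have hmax : max 0 (4 * (-1) * ν + 4) = 0 := by
      rw [max_eq_left]; linarith
    rw [hmax] at hineq
    have h1 : Q * ((M - ν) * (M + ν)) ≤ 4 * (M ^ 2 - 1) := by nlinarith
    have hpos' : 0 < (M - ν) * (M + ν) := mul_pos (by linarith) (by linarith)
    have h2 : (M + 2) * ((M - ν) * (M + ν)) ≤ 4 * (M ^ 2 - 1) :=
      (mul_le_mul_of_nonneg_right hQ hpos'.le).trans h1
    have h3 : 4 * (M - 1) ≤ (M - ν) * (M + ν) := by nlinarith
    nlinarith

section pair

variable {q e M : ℕ} [NeZero (q ^ e)] {Y : Type*} [Fintype Y] [DecidableEq Y]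

/-- the symplectic kernel on `(ZMod N) ^ 2` -/
noncomputable def SK {N : ℕ} (χ : AddChar (ZMod N) ℂ) (v w : ZMod N × ZMod N) : ℂ :=
  χ (w.2 * v.1 - w.1 * v.2)

theorem ker_SK {N : ℕ} [NeZero N] (χ : AddChar (ZMod N) ℂ) (hχ : χ.IsPrimitive) :
    Ker (SK χ) 0 N := by
  refine ⟨?_, ?_, ?_, ?_, ?_⟩
  · intro x; simp [SK]
  · intro x; simp [SK]
  · intro x z
    have h1 : ∀ y : ZMod N × ZMod N, SK χ z y * SK χ y x =
        χ (y.1 * (x.2 - z.2)) * χ (y.2 * (z.1 - x.1)) := by
      intro y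
      unfold SK
      rw [← AddChar.map_add_eq_mul, ← AddChar.map_add_eq_mul]
      congr 1
      ring
    rw [Finset.sum_congr rfl fun y _ => h1 y, Fintype.sum_prod_type]
    simp only
    rw [← Finset.sum_mul_sum, AddChar.sum_mulShift _ hχ, AddChar.sum_mulShift _ hχ, ZMod.card]
    simp only [sub_eq_zero]
    by_cases h4 : x = z
    · rw [if_pos h4, h4]; simp [sq]
    · rw [if_neg h4]
      by_cases h5 : x.2 = z.2
      · have h6 : ¬ z.1 = x.1 := fun h6 => h4 (Prod.ext h6.symm h5)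
        rw [if_neg h6]
        simp
      · rw [if_neg h5]
        simp
  · intro x y
    unfold SK
    rw [← AddChar.map_neg_eq_conj]
    congr 1
    ring
  · intro x y
    exact R848.SIC.char_integral χ _

theorem pair_false (hq : q.Prime) (he : 1 ≤ e) (hq2 : q ≠ 2) (hM : Odd M) (hM3 : 3 ≤ M)
    (hco : Nat.Coprime (q ^ e) M) (hlt : M + 2 ≤ q ^ e)
    (χ : AddChar (ZMod (q ^ e)) ℂ) (hχ : χ.IsPrimitive)
    {L : Y → Y → ℂ} {p : Y} (hL : Ker L p M) (hcard : Fintype.card Y = M ^ 2)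
    (F : ZMod (q ^ e) × ZMod (q ^ e) → Y → ℤ)
    (hF : ∀ v s, (v ≠ 0 ∨ s ≠ p) → F v s = 1 ∨ F v s = -1)
    (hFu : ∀ (u : (ZMod (q ^ e))ˣ) (w : ZMod (q ^ e) × ZMod (q ^ e)) (s : Y),
      F (u * w.1, u * w.2) s = F w s)
    (ε : ℤ) (hε : ε = 1 ∨ ε = -1)
    (hdual : ∀ v s, ∑ w, ∑ r, SK χ v w * L s r * (F w r : ℂ) =
      (ε * (q ^ e : ℕ) * M : ℤ) * (F v s : ℂ))
    (σ ν : ℤ) (hσ : σ = 1 ∨ σ = -1) (hn : F 0 p = σ + (q ^ e : ℕ) * ν) (hpos : 0 < F 0 p)
    (hltn : F 0 p < (q ^ e : ℕ) * M) (heven : Even (F 0 p)) (hMn : (M : ℤ) ∣ F 0 p + σ) : False := by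
  classical
  have hK := ker_SK χ hχ
  have hM0 : M ≠ 0 := by omega
  have hMC : (M : ℂ) ≠ 0 := by exact_mod_cast hM0
  obtain ⟨Q, hQdef⟩ : ∃ Q : ℕ, Q = q ^ e := ⟨_, rfl⟩
  have hQ0 : Q ≠ 0 := by rw [hQdef]; exact pow_ne_zero _ hq.ne_zero
  have hQZ : ((q ^ e : ℕ) : ℤ) = (Q : ℤ) := by rw [hQdef]
  set P : ZMod (q ^ e) := ((q ^ (e - 1) : ℕ) : ZMod (q ^ e)) with hP
  have hP0 : P ≠ 0 := by
    rw [hP, ne_eq, ZMod.natCast_eq_zero_iff]
    intro h
    have h1 := Nat.le_of_dvd (pow_pos hq.pos _) h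
    have h2 : q ^ (e - 1) < q ^ e := Nat.pow_lt_pow_right hq.one_lt (by omega)
    omega
  have hone : (1 : ZMod (q ^ e)) ≠ 0 := by
    have : Fact (1 < q ^ e) := ⟨by omega⟩
    exact one_ne_zero
  set H : Y → ZMod (q ^ e) → ℤ := fun s t => ∑ a, (F (a, t * a) s - F (a, t * a + P) s) with hH
  -- P1
  have hline : ∀ s t, ∑ w, SK χ (1, t) w * (F w s : ℂ) = H s t := by
    intro s t
    have h3 : ∑ w, SK χ (1, t) w * (F w s : ℂ) = ∑ β : ZMod (q ^ e), χ β *
        ∑ a : ZMod (q ^ e), (F (a, t * a + β) s : ℂ) := by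
      simp_rw [Finset.mul_sum]
      rw [Fintype.sum_prod_type, Finset.sum_comm (s := (Finset.univ : Finset (ZMod (q ^ e))))
        (t := (Finset.univ : Finset (ZMod (q ^ e)))) (f := fun β a =>
          χ β * (F (a, t * a + β) s : ℂ))]
      refine Finset.sum_congr rfl fun a _ => ?_
      rw [← Equiv.sum_comp (Equiv.addLeft (t * a))]
      refine Finset.sum_congr rfl fun β _ => ?_
      simp only [Equiv.coe_addLeft, SK]
      congr 2
      ring
    rw [h3, R848.SIC.ramanujan hq he χ hχ]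
    · rw [← Finset.sum_sub_distrib]
      simp only [add_zero, hH, hP]
      push_cast
      rfl
    · intro k β
      rw [← Equiv.sum_comp (Units.mulLeft k)]
      refine Finset.sum_congr rfl fun a _ => ?_
      simp only [Units.mulLeft_apply]
      rw [← hFu k (a, t * a + β) s]
      congr 3
      ring
  -- P2
  have hG : ∀ v s, (M : ℂ) * ∑ w, SK χ v w * (F w s : ℂ) =
      (ε * Q : ℤ) * ∑ u, L s u * (F v u : ℂ) := by
    intro v s
    have h1 : ∑ u, L s u * ∑ w, ∑ r, SK χ v w * L u r * (F w r : ℂ) =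
        (M : ℂ) ^ 2 * ∑ w, SK χ v w * (F w s : ℂ) := by
      simp_rw [Finset.mul_sum]
      rw [Finset.sum_comm]
      refine Finset.sum_congr rfl fun w _ => ?_
      rw [Finset.sum_comm]
      have h2 : ∀ r, ∑ u, L s u * (SK χ v w * L u r * (F w r : ℂ)) =
          if r = s then (M : ℂ) ^ 2 * (SK χ v w * F w s) else 0 := by
        intro r
        have : ∑ u, L s u * (SK χ v w * L u r * (F w r : ℂ)) =
            (SK χ v w * F w r) * ∑ u, L s u * L u r := by
          rw [Finset.mul_sum]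
          exact Finset.sum_congr rfl fun s _ => by ring
        rw [this, hL.inv]
        by_cases h3 : r = s
        · rw [if_pos h3, if_pos h3, h3]; ring
        · rw [if_neg h3, if_neg h3, mul_zero]
      rw [Finset.sum_congr rfl fun r _ => h2 r, Finset.sum_ite_eq', if_pos (Finset.mem_univ _)]
    have h2 : ∑ u, L s u * ∑ w, ∑ r, SK χ v w * L u r * (F w r : ℂ) =
        (ε * Q * M : ℤ) * ∑ u, L s u * (F v u : ℂ) := by
      rw [Finset.mul_sum]
      refine Finset.sum_congr rfl fun u _ => ?_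
      rw [hdual, hQdef]
      ring
    apply mul_left_cancel₀ hMC
    calc (M : ℂ) * ((M : ℂ) * ∑ w, SK χ v w * (F w s : ℂ))
        = (M : ℂ) ^ 2 * ∑ w, SK χ v w * (F w s : ℂ) := by ring
      _ = (ε * Q * M : ℤ) * ∑ u, L s u * (F v u : ℂ) := by rw [← h1, h2]
      _ = _ := by push_cast; ring
  -- P3
  have hdvd : ∀ s t, (Q : ℤ) ∣ H s t := by
    intro s t
    apply SIC.dvd_of_integral Q M hQ0 (by rw [hQdef]; exact hco) (H s t)
      (ε * ∑ u, L s u * (F (1, t) u : ℂ))
    · apply IsIntegral.mul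
      · exact isIntegral_algebraMap (R := ℤ) (x := ε)
      · exact IsIntegral.sum _ fun u _ => (hL.int s u).mul
          (isIntegral_algebraMap (R := ℤ) (x := F (1, t) u))
    · rw [← hline, hG]
      push_cast
      ring
  -- P4
  have hpars : ∀ t, ∑ s, H s t ^ 2 = ((Q : ℤ) * M) ^ 2 := by
    intro t
    have hv : ((1 : ZMod (q ^ e)), t) ≠ 0 := fun h => hone (congrArg Prod.fst h)
    have h1 : ∑ s, (∑ u, L s u * (F (1, t) u : ℂ)) * conj (∑ u, L s u * (F (1, t) u : ℂ)) =
        (M : ℂ) ^ 4 := by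
      have h2 : ∀ s, (∑ u, L s u * (F (1, t) u : ℂ)) * conj (∑ u, L s u * (F (1, t) u : ℂ)) =
          ∑ u, ∑ u', ((F (1, t) u : ℂ) * F (1, t) u') * (L u' s * L s u) := by
        intro s
        rw [map_sum, Finset.sum_mul_sum]
        refine Finset.sum_congr rfl fun u _ => Finset.sum_congr rfl fun u' _ => ?_
        rw [map_mul, hL.herm, map_intCast]
        ring
      rw [Finset.sum_congr rfl fun s _ => h2 s, Finset.sum_comm]
      have h3 : ∀ u, ∑ s, ∑ u', ((F (1, t) u : ℂ) * F (1, t) u') * (L u' s * L s u) =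
          (M : ℂ) ^ 2 := by
        intro u
        rw [Finset.sum_comm]
        have h4 : ∀ u', ∑ s, ((F (1, t) u : ℂ) * F (1, t) u') * (L u' s * L s u) =
            if u' = u then (M : ℂ) ^ 2 else 0 := by
          intro u'
          rw [← Finset.mul_sum, hL.inv]
          by_cases h5 : u' = u
          · rw [if_pos h5, if_pos h5.symm, h5]
            have : (F (1, t) u : ℂ) * F (1, t) u = 1 := by
              rcases hF (1, t) u (Or.inl hv) with h | h <;> rw [h] <;> norm_num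
            rw [this, one_mul]
          · rw [if_neg h5, if_neg (Ne.symm h5), mul_zero]
        rw [Finset.sum_congr rfl fun u' _ => h4 u', Finset.sum_ite_eq', if_pos (Finset.mem_univ _)]
      rw [Finset.sum_congr rfl fun u _ => h3 u, Finset.sum_const, Finset.card_univ, hcard,
        nsmul_eq_mul]
      push_cast
      ring
    have hεε : (ε : ℂ) * ε = 1 := by rcases hε with h | h <;> rw [h] <;> norm_num
    have h2 : ∀ s, ((M : ℂ) * H s t) * conj ((M : ℂ) * H s t) = (Q : ℂ) ^ 2 *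
        ((∑ u, L s u * (F (1, t) u : ℂ)) * conj (∑ u, L s u * (F (1, t) u : ℂ))) := by
      intro s
      rw [← hline, hG, map_mul, map_intCast]
      push_cast
      linear_combination ((Q : ℂ) ^ 2 * (∑ u, L s u * (F (1, t) u : ℂ)) *
        conj (∑ u, L s u * (F (1, t) u : ℂ))) * hεε
    have h3 : (M : ℂ) ^ 2 * ∑ s, (H s t : ℂ) ^ 2 = (M : ℂ) ^ 2 * ((Q : ℂ) * M) ^ 2 := by
      calc (M : ℂ) ^ 2 * ∑ s, (H s t : ℂ) ^ 2
          = ∑ s, ((M : ℂ) * H s t) * conj ((M : ℂ) * H s t) := by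
            rw [Finset.mul_sum]
            refine Finset.sum_congr rfl fun s _ => ?_
            rw [map_mul, map_natCast, map_intCast]
            ring
        _ = (Q : ℂ) ^ 2 * (M : ℂ) ^ 4 := by
            rw [Finset.sum_congr rfl fun s _ => h2 s, ← Finset.mul_sum, h1]
        _ = _ := by ring
    have h4 := mul_left_cancel₀ (pow_ne_zero 2 hMC) h3
    exact_mod_cast h4
  -- P5
  have hkb1 : ∀ s, s ≠ p → ∑ t, H s t ^ 2 ≤ 4 * (Q : ℤ) ^ 2 := by
    intro s hs
    have h1 := R848.SIC.key_bound hq he hq2 (fun a b => F (a, b) s)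
      (fun a b => hF _ _ (Or.inr hs)) (fun t => by rw [hQZ]; exact hdvd s t) 0
    simp only [zero_add] at h1
    refine h1.trans (le_of_eq ?_)
    rw [hQZ]
    have : (0 : ℤ) ≤ 4 * (Q : ℤ) ^ 2 := by positivity
    rw [mul_zero, zero_add, max_eq_right this]
    ring
  have hkb0 : ∑ t, H p t ^ 2 ≤ Q * (Q * ν) ^ 2 + max 0 (4 * Q * σ * (Q * ν) + 4 * Q ^ 2) := by
    set g : ZMod (q ^ e) → ZMod (q ^ e) → ℤ :=
      fun a b => if (a, b) = (0 : ZMod (q ^ e) × ZMod (q ^ e)) then σ else F (a, b) p with hg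
    have hg1 : ∀ a b, g a b = 1 ∨ g a b = -1 := by
      intro a b
      by_cases hw : (a, b) = (0 : ZMod (q ^ e) × ZMod (q ^ e))
      · simp only [hg, if_pos hw]; exact hσ
      · simp only [hg, if_neg hw]; exact hF _ _ (Or.inl hw)
    have hgF : ∀ a b, F (a, b) p = g a b +
        if (a, b) = (0 : ZMod (q ^ e) × ZMod (q ^ e)) then (Q * ν : ℤ) else 0 := by
      intro a b
      by_cases hw : (a, b) = (0 : ZMod (q ^ e) × ZMod (q ^ e))
      · simp only [hg, if_pos hw]
        rw [hw, hn, hQdef]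
      · simp only [hg, if_neg hw, add_zero]
    have hHg : ∀ t, H p t = Q * ν + ∑ a, (g a (t * a) - g a (t * a + P)) := by
      intro t
      have h1 : ∀ a : ZMod (q ^ e), F (a, t * a) p - F (a, t * a + P) p =
          (g a (t * a) - g a (t * a + P)) + if a = 0 then (Q * ν : ℤ) else 0 := by
        intro a
        rw [hgF, hgF]
        by_cases ha : a = 0
        · have e2 : (a, t * a) = (0 : ZMod (q ^ e) × ZMod (q ^ e)) := by
            rw [ha, mul_zero]; rfl
          have e3 : ¬ (a, t * a + P) = (0 : ZMod (q ^ e) × ZMod (q ^ e)) := by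
            intro h3
            have := congrArg Prod.snd h3
            simp only [ha, mul_zero, zero_add, Prod.snd_zero] at this
            exact hP0 this
          rw [if_pos e2, if_neg e3, if_pos ha]
          ring
        · have e2 : ¬ (a, t * a) = (0 : ZMod (q ^ e) × ZMod (q ^ e)) :=
            fun h3 => ha (congrArg Prod.fst h3)
          have e3 : ¬ (a, t * a + P) = (0 : ZMod (q ^ e) × ZMod (q ^ e)) :=
            fun h3 => ha (congrArg Prod.fst h3)
          rw [if_neg e2, if_neg e3, if_neg ha]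
          ring
      simp only [hH]
      rw [Finset.sum_congr rfl fun a _ => h1 a, Finset.sum_add_distrib, Finset.sum_ite_eq',
        if_pos (Finset.mem_univ _)]
      ring
    have hgd : ∀ t, ((q ^ e : ℕ) : ℤ) ∣ ∑ a, (g a (t * a) - g a (t * a + P)) := by
      intro t
      have h1 := hdvd p t
      rw [hHg t] at h1
      rw [hQZ]
      exact (dvd_add_right (dvd_mul_right _ _)).1 h1
    have hkb := R848.SIC.key_bound hq he hq2 g hg1 hgd ((Q : ℤ) * ν)
    have hg00 : g 0 0 = σ := by simp [hg]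
    rw [hg00, hQZ] at hkb
    calc ∑ t, H p t ^ 2 = ∑ t, ((Q : ℤ) * ν + ∑ a, (g a (t * a) - g a (t * a + P))) ^ 2 :=
          Finset.sum_congr rfl fun t _ => by rw [hHg t]
      _ ≤ _ := hkb
  -- P6
  have htot : (Q : ℤ) * (Q * M) ^ 2 ≤ (M ^ 2 - 1) * (4 * Q ^ 2) +
      (Q * (Q * ν) ^ 2 + max 0 (4 * Q * σ * (Q * ν) + 4 * Q ^ 2)) := by
    calc (Q : ℤ) * (Q * M) ^ 2 = ∑ t : ZMod (q ^ e), ∑ s : Y, H s t ^ 2 := by
          rw [Finset.sum_congr rfl fun t _ => hpars t]
          simp only [Finset.sum_const, Finset.card_univ, ZMod.card, nsmul_eq_mul]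
          rw [hQdef]
      _ = ∑ s : Y, ∑ t : ZMod (q ^ e), H s t ^ 2 := Finset.sum_comm
      _ = ∑ s ∈ Finset.univ.erase p, ∑ t : ZMod (q ^ e), H s t ^ 2 +
          ∑ t : ZMod (q ^ e), H p t ^ 2 := (Finset.sum_erase_add _ _ (Finset.mem_univ p)).symm
      _ ≤ ∑ s ∈ Finset.univ.erase p, 4 * (Q : ℤ) ^ 2 +
          (Q * (Q * ν) ^ 2 + max 0 (4 * Q * σ * (Q * ν) + 4 * Q ^ 2)) := by
          apply add_le_add _ hkb0
          exact Finset.sum_le_sum fun s hs => hkb1 s (Finset.ne_of_mem_erase hs)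
      _ = _ := by
          rw [Finset.sum_const, Finset.card_erase_of_mem (Finset.mem_univ _), Finset.card_univ,
            hcard, nsmul_eq_mul, Nat.cast_sub (by nlinarith)]
          push_cast
          ring
  have hQpos : (0 : ℤ) < Q ^ 2 := by positivity
  have hmaxeq : max 0 (4 * (Q : ℤ) * σ * (Q * ν) + 4 * Q ^ 2) =
      Q ^ 2 * max 0 (4 * σ * ν + 4) := by
    rw [mul_max_of_nonneg _ _ hQpos.le, mul_zero]
    congr 1
    ring
  rw [hmaxeq] at htot
  have hfin : (Q : ℤ) * M ^ 2 ≤ 4 * (M ^ 2 - 1) + Q * ν ^ 2 + max 0 (4 * σ * ν + 4) := by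
    apply le_of_mul_le_mul_left _ hQpos
    calc (Q : ℤ) ^ 2 * (Q * M ^ 2) = Q * (Q * M) ^ 2 := by ring
      _ ≤ _ := htot
      _ = _ := by ring
  rw [hQZ] at hn hltn
  rw [← hQdef] at hlt
  exact pair_num Q M (F 0 p) σ ν (by exact_mod_cast hM3) (by exact_mod_cast hlt) hσ hn hpos hltn
    (by exact_mod_cast hM) heven hMn hfin

end pair

end Pool.Agent.U338.Inv
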