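import Mathlib
import Pool.Agent.U338.Inv.Pair
import Pool.Agent.R848.SICP.Aligned

/-!
# Self-dual functions on `(ZMod m) ^ 2` with values `± 1` off the origin

The theorem `aligned` removes the hypothesis that `m` is squarefree from
`R848.SICP.aligned`.
-/

set_option autoImplicit false
set_option linter.unusedSectionVars false

open Finset ComplexConjugate

namespace Pool.Agent.U338.Inv

open R848.SICP (crt_char crt_sum crt_unit unit_inv)

/-- self-dual functions with the value `n` at the origin and `± 1` elsewhere -/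
structure SD {m : ℕ} [NeZero m] (G : ZMod m → ZMod m → ℤ) (n : ℤ) : Prop where
  off : ∀ c b, ¬ (c = 0 ∧ b = 0) → G c b = 1 ∨ G c b = -1
  zero : G 0 0 = n
  dual : ∃ (χ : AddChar (ZMod m) ℂ) (ε : ℤ), χ.IsPrimitive ∧ (ε = 1 ∨ ε = -1) ∧
    ∀ x y, ∑ c, ∑ b, χ (b * x - c * y) * (G c b : ℂ) = ((ε * (m : ℕ) : ℤ) : ℂ) * G x y

theorem SD.unit {m : ℕ} [NeZero m] {G : ZMod m → ZMod m → ℤ} {n : ℤ} (h : SD G n)
    (u : ZMod m) (hu : IsUnit u) (x y : ZMod m) : G (u * x) (u * y) = G x y := by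
  obtain ⟨χ, ε, hχ, hε, hd⟩ := h.dual
  refine unit_inv χ hχ G (ε * (m : ℕ)) ?_ hd u hu x y
  have h1 : ((m : ℕ) : ℤ) ≠ 0 := by exact_mod_cast NeZero.ne m
  rcases hε with h | h <;> rw [h] <;> simpa using NeZero.ne m

theorem SD.neg {m : ℕ} [NeZero m] {G : ZMod m → ZMod m → ℤ} {n : ℤ} (h : SD G n) :
    SD (fun c b => -G c b) (-n) := by
  refine ⟨?_, by rw [h.zero], ?_⟩
  · intro c b hcb
    rcases h.off c b hcb with h1 | h1 <;> rw [h1] <;> norm_num
  · obtain ⟨χ, ε, hχ, hε, hd⟩ := h.dual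
    refine ⟨χ, ε, hχ, hε, fun x y => ?_⟩
    have h1 : ∑ c, ∑ b, χ (b * x - c * y) * ((-G c b : ℤ) : ℂ) =
        -∑ c, ∑ b, χ (b * x - c * y) * (G c b : ℂ) := by
      rw [← Finset.sum_neg_distrib]
      refine Finset.sum_congr rfl fun c _ => ?_
      rw [← Finset.sum_neg_distrib]
      refine Finset.sum_congr rfl fun b _ => ?_
      push_cast; ring
    rw [h1, hd]
    push_cast
    ring

section split

variable {Q M : ℕ}

/-- the split form -/
noncomputable def FF (hco : Q.Coprime M) (G : ZMod (Q * M) → ZMod (Q * M) → ℤ)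
    (v : ZMod Q × ZMod Q) (s : ZMod M × ZMod M) : ℤ :=
  G ((ZMod.chineseRemainder hco).symm (v.1, s.1)) ((ZMod.chineseRemainder hco).symm (v.2, s.2))

theorem FF_facts (hco : Q.Coprime M) [NeZero (Q * M)] [NeZero Q] [NeZero M]
    {G : ZMod (Q * M) → ZMod (Q * M) → ℤ} {n : ℤ} (h : SD G n) :
    (∀ v s, (v ≠ 0 ∨ s ≠ 0) → FF hco G v s = 1 ∨ FF hco G v s = -1) ∧
    FF hco G 0 0 = n ∧
    (∀ (u : ZMod Q) (w : ZMod M), IsUnit u → IsUnit w → ∀ v s,
      FF hco G (u * v.1, u * v.2) (w * s.1, w * s.2) = FF hco G v s) ∧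
    ∃ (χ1 : AddChar (ZMod Q) ℂ) (χ2 : AddChar (ZMod M) ℂ) (ε : ℤ), χ1.IsPrimitive ∧
      χ2.IsPrimitive ∧ (ε = 1 ∨ ε = -1) ∧ ∀ v s, ∑ w, ∑ r, SK χ1 v w * SK χ2 s r *
        (FF hco G w r : ℂ) = (ε * Q * M : ℤ) * (FF hco G v s : ℂ) := by
  set E := ZMod.chineseRemainder hco with hE
  refine ⟨?_, ?_, ?_, ?_⟩
  · intro v s hvs
    apply h.off
    rintro ⟨h1, h2⟩
    rw [map_eq_zero_iff E.symm E.symm.injective] at h1 h2
    have e1 : v.1 = 0 := congrArg Prod.fst h1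
    have e2 : v.2 = 0 := congrArg Prod.fst h2
    have e3 : s.1 = 0 := congrArg Prod.snd h1
    have e4 : s.2 = 0 := congrArg Prod.snd h2
    rcases hvs with h3 | h3
    · exact h3 (Prod.ext e1 e2)
    · exact h3 (Prod.ext e3 e4)
  · have h1 : FF hco G 0 0 = G (E.symm 0) (E.symm 0) := rfl
    rw [h1, map_zero, h.zero]
  · intro u w hu hw v s
    have h1 := h.unit (E.symm (u, w)) (crt_unit hco hu hw) (E.symm (v.1, s.1)) (E.symm (v.2, s.2))
    rw [← map_mul, ← map_mul] at h1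
    exact h1
  · obtain ⟨χ, ε, hχ, hε, hd⟩ := h.dual
    obtain ⟨χ1, χ2, h1, h2, h3⟩ := crt_char hco χ hχ
    refine ⟨χ1, χ2, ε, h1, h2, hε, fun v s => ?_⟩
    have h4 := hd (E.symm (v.1, s.1)) (E.symm (v.2, s.2))
    rw [crt_sum hco χ χ1 χ2 h3 (fun c b => (G c b : ℂ)) v.1 v.2 s.1 s.2] at h4
    have h5 : ∑ w : ZMod Q × ZMod Q, ∑ r : ZMod M × ZMod M, SK χ1 v w * SK χ2 s r *
        (FF hco G w r : ℂ) = ∑ s' : ZMod M, ∑ r : ZMod M, ∑ a : ZMod Q, ∑ b : ZMod Q,
          (χ1 (b * v.1 - a * v.2) * χ2 (r * s.1 - s' * s.2)) *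
          (G (E.symm (a, s')) (E.symm (b, r)) : ℂ) := by
      rw [Finset.sum_comm, Fintype.sum_prod_type]
      refine Finset.sum_congr rfl fun s' _ => Finset.sum_congr rfl fun r _ => ?_
      rw [Fintype.sum_prod_type]
      rfl
    rw [h5, h4]
    push_cast
    simp only [FF]
    ring

/-- **restriction to a Hall divisor** -/
theorem hall (hco : Q.Coprime M) [NeZero (Q * M)] [NeZero Q] [NeZero M] (hQ : Odd Q) (hM : Odd M)
    {G : ZMod (Q * M) → ZMod (Q * M) → ℤ} {n : ℤ} (h : SD G n) (n' j : ℤ)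
    (hn : n = n' + 2 * j * Q) (hn' : |n'| < Q) :
    (∃ G' : ZMod Q → ZMod Q → ℤ, SD G' n') ∧ (Odd n → Even j) := by
  classical
  obtain ⟨h1, h2, h3, χ1, χ2, ε, hχ1, hχ2, hε, h4⟩ := FF_facts hco h
  have h20 : IsUnit (2 : ZMod M) := by
    have : Nat.Coprime 2 M := (Nat.coprime_two_left).2 hM
    exact_mod_cast (ZMod.isUnit_iff_coprime 2 M).2 this
  have hνp : ∀ y : ZMod M × ZMod M, -y = y → y = 0 := by
    intro y hy
    have hz : ∀ z : ZMod M, -z = z → z = 0 := by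
      intro z hz
      have : 2 * z = 0 := by linear_combination -hz
      rwa [h20.mul_right_eq_zero] at this
    exact Prod.ext (hz _ (congrArg Prod.fst hy)) (hz _ (congrArg Prod.snd hy))
  have hcard : Fintype.card (ZMod M × ZMod M) = M ^ 2 := by
    rw [Fintype.card_prod, ZMod.card, sq]
  have h5 := ma (ker_SK χ1 hχ1) (ker_SK χ2 hχ2) hQ hM hco.symm hcard (fun y => -y) neg_neg hνp
    neg_zero (FF hco G) h1 (by
      intro v s
      have h6 := h3 1 (-1) isUnit_one isUnit_one.neg v s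
      rw [one_mul, one_mul] at h6
      rw [← h6]
      congr 1
      ext <;> simp) ε hε h4 n' j (by rw [h2]; exact hn) hn'
  obtain ⟨⟨ε', hε', h6⟩, h7⟩ := h5
  rw [h2] at h7
  refine ⟨⟨fun c b => if (c, b) = (0 : ZMod Q × ZMod Q) then n' else FF hco G (c, b) 0,
    ?_, ?_, χ1, ε', hχ1, hε', ?_⟩, h7⟩
  · intro c b hcb
    have : ¬ (c, b) = (0 : ZMod Q × ZMod Q) := fun h =>
      hcb ⟨congrArg Prod.fst h, congrArg Prod.snd h⟩
    simp only [if_neg this]
    exact h1 _ _ (Or.inl this)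
  · have : ((0 : ZMod Q), (0 : ZMod Q)) = 0 := rfl
    simp only [this, if_true]
  · intro x y
    have h8 := h6 (x, y)
    rw [Fintype.sum_prod_type] at h8
    exact h8

/-- mixed residues exclude each other, `Q` the larger prime power -/
theorem mixed_even {q e : ℕ} (hq : q.Prime) (he : 1 ≤ e) (hq2 : q ≠ 2) (hM : Odd M)
    (hM3 : 3 ≤ M) (hco : Nat.Coprime (q ^ e) M) (hlt : M + 2 ≤ q ^ e)
    [NeZero (q ^ e * M)] [NeZero (q ^ e)] [NeZero M]
    {G : ZMod (q ^ e * M) → ZMod (q ^ e * M) → ℤ} {n : ℤ} (h : SD G n) (hn0 : n ≠ 0)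
    (hn : |n| < (q ^ e : ℕ) * M) (heven : Even n) (σ : ℤ) (hσ : σ = 1 ∨ σ = -1)
    (h1 : ((q ^ e : ℕ) : ℤ) ∣ n - σ) (h2 : (M : ℤ) ∣ n + σ) : False := by
  classical
  -- positive case
  have key : ∀ (G : ZMod (q ^ e * M) → ZMod (q ^ e * M) → ℤ) (n : ℤ), SD G n → 0 < n →
      n < (q ^ e : ℕ) * M → Even n → ∀ σ : ℤ, (σ = 1 ∨ σ = -1) → ((q ^ e : ℕ) : ℤ) ∣ n - σ →
      (M : ℤ) ∣ n + σ → False := by
    intro G n h hpos hlt' heven σ hσ h1 h2
    obtain ⟨f1, f2, f3, χ1, χ2, ε, hχ1, hχ2, hε, f4⟩ := FF_facts hco h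
    obtain ⟨ν, hν⟩ := h1
    refine pair_false hq he hq2 hM hM3 hco hlt χ1 hχ1 (ker_SK χ2 hχ2)
      (by rw [Fintype.card_prod, ZMod.card, sq]) (FF hco G) f1 ?_ ε hε f4 σ ν hσ
      (by rw [f2]; linarith) (by rw [f2]; exact hpos) (by rw [f2]; exact hlt')
      (by rw [f2]; exact heven) (by rw [f2]; exact h2)
    intro u w s
    have h6 := f3 u 1 u.isUnit isUnit_one w s
    rw [one_mul, one_mul] at h6
    exact h6
  rw [abs_lt] at hn
  rcases lt_or_gt_of_ne hn0 with h3 | h3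
  · refine key _ (-n) h.neg (by linarith) (by linarith) heven.neg (-σ) ?_ ?_ ?_
    · rcases hσ with h | h <;> rw [h] <;> norm_num
    · obtain ⟨c, hc⟩ := h1
      exact ⟨-c, by linear_combination -hc⟩
    · obtain ⟨c, hc⟩ := h2
      exact ⟨-c, by linear_combination -hc⟩
  · exact key G n h h3 hn.2 heven σ hσ h1 h2

end split

/-- the value at the origin is at most `m + 1` -/
theorem SD.le {m : ℕ} [NeZero m] {G : ZMod m → ZMod m → ℤ} {n : ℤ} (h : SD G n) (hm : 1 < m) :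
    n ≤ m + 1 := by
  classical
  obtain ⟨χ, ε, hχ, hε, hd⟩ := h.dual
  have h1 := hd 0 0
  simp only [mul_zero, sub_zero, AddChar.map_zero_eq_one, one_mul] at h1
  rw [h.zero] at h1
  have h2 : ∑ p : ZMod m × ZMod m, G p.1 p.2 = ε * m * n := by
    rw [Fintype.sum_prod_type]
    have h5 : ((∑ c, ∑ b, G c b : ℤ) : ℂ) = ((ε * m * n : ℤ) : ℂ) := by
      push_cast
      push_cast at h1
      exact h1
    exact_mod_cast h5
  rw [← Finset.sum_erase_add _ _ (Finset.mem_univ (0 : ZMod m × ZMod m))] at h2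
  have h3 : |∑ p ∈ Finset.univ.erase (0 : ZMod m × ZMod m), G p.1 p.2| ≤ (m : ℤ) ^ 2 - 1 := by
    calc |∑ p ∈ Finset.univ.erase (0 : ZMod m × ZMod m), G p.1 p.2|
        ≤ ∑ p ∈ Finset.univ.erase (0 : ZMod m × ZMod m), |G p.1 p.2| :=
          Finset.abs_sum_le_sum_abs _ _
      _ = ∑ p ∈ Finset.univ.erase (0 : ZMod m × ZMod m), (1 : ℤ) := by
          refine Finset.sum_congr rfl fun p hp => ?_
          have h4 : ¬ (p.1 = 0 ∧ p.2 = 0) := fun h5 =>
            Finset.ne_of_mem_erase hp (Prod.ext h5.1 h5.2)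
          rcases h.off p.1 p.2 h4 with h5 | h5 <;> rw [h5] <;> simp
      _ = (m : ℤ) ^ 2 - 1 := by
          rw [Finset.sum_const, Finset.card_erase_of_mem (Finset.mem_univ _), Finset.card_univ,
            Fintype.card_prod, ZMod.card, nsmul_eq_mul, mul_one,
            Nat.cast_sub (by nlinarith)]
          push_cast; ring
  have h4 : G (0 : ZMod m × ZMod m).1 (0 : ZMod m × ZMod m).2 = n := h.zero
  rw [h4] at h2
  rw [abs_le] at h3
  have hm' : (1 : ℤ) < m := by exact_mod_cast hm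
  by_contra h5
  push Not at h5
  rcases hε with h6 | h6 <;> rw [h6] at h2 <;> nlinarith

/-- **Self-dual sign functions.** -/
theorem aligned {m : ℕ} [NeZero m] (hm1 : m ≠ 1) (hodd : Odd m)
    (χ : AddChar (ZMod m) ℂ) (hχ : χ.IsPrimitive)
    (n : ℕ) (hn2 : 2 ≤ n) (hn : (m : ℤ) ∣ (n : ℤ) ^ 2 - 1)
    (ε : ℤ) (hε : ε = 1 ∨ ε = -1)
    (G : ZMod m → ZMod m → ℤ)
    (h1 : ∀ c b, ¬ (c = 0 ∧ b = 0) → G c b = 1 ∨ G c b = -1)
    (h2 : G 0 0 = n)
    (hdual : ∀ x y, ∑ c, ∑ b, χ (b * x - c * y) * (G c b : ℂ) =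
      ((ε * (m : ℕ) : ℤ) : ℂ) * G x y) : n = m + 1 ∨ n + 1 = m := by
  classical
  have hSD : SD G n := ⟨h1, h2, χ, ε, hχ, hε, hdual⟩
  have hm0 : m ≠ 0 := NeZero.ne m
  have hm3 : 3 ≤ m := by
    obtain ⟨i, hi⟩ := hodd
    omega
  have hle := hSD.le (by omega)
  by_contra hcon
  push Not at hcon
  -- the gcds
  set n₁ : ℕ := n - 1 with hn₁
  set m₁ := Nat.gcd m n₁ with hm₁
  set m₂ := Nat.gcd m (n + 1) with hm₂
  have hn₁Z : ((n₁ : ℕ) : ℤ) = n - 1 := by rw [hn₁]; push_cast [Nat.cast_sub (by omega : 1 ≤ n)]; ring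
  have hdvd : m ∣ n₁ * (n + 1) := by
    have : ((m : ℕ) : ℤ) ∣ ((n₁ * (n + 1) : ℕ) : ℤ) := by
      push_cast
      rw [hn₁Z]
      obtain ⟨c, hc⟩ := hn
      exact ⟨c, by linear_combination hc⟩
    exact_mod_cast this
  have hco : m₁.Coprime m₂ := by
    rw [Nat.coprime_iff_gcd_eq_one]
    by_contra hne
    obtain ⟨p, hp, hpd⟩ := Nat.exists_prime_and_dvd hne
    have e1 : p ∣ m := (hpd.trans (Nat.gcd_dvd_left _ _)).trans (Nat.gcd_dvd_left _ _)
    have e2 : p ∣ n₁ := (hpd.trans (Nat.gcd_dvd_left _ _)).trans (Nat.gcd_dvd_right _ _)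
    have e3 : p ∣ n + 1 := (hpd.trans (Nat.gcd_dvd_right _ _)).trans (Nat.gcd_dvd_right _ _)
    have e4 : p ∣ 2 := by
      have h5 : n + 1 = n₁ + 2 := by omega
      rw [h5] at e3
      exact (Nat.dvd_add_right e2).1 e3
    have e5 : p = 2 := (Nat.prime_dvd_prime_iff_eq hp Nat.prime_two).1 e4
    rw [e5] at e1
    exact (Nat.not_even_iff_odd.2 hodd) (even_iff_two_dvd.2 e1)
  have hprod : m = m₁ * m₂ := by
    apply Nat.dvd_antisymm
    · have h3 : Nat.gcd m (n₁ * (n + 1)) = m := Nat.gcd_eq_left hdvd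
      calc m = Nat.gcd m (n₁ * (n + 1)) := h3.symm
        _ ∣ _ := Nat.gcd_mul_right_dvd_mul_gcd _ _ _
    · exact hco.mul_dvd_of_dvd_of_dvd (Nat.gcd_dvd_left _ _) (Nat.gcd_dvd_left _ _)
  have hm₁odd : Odd m₁ := hodd.of_dvd_nat (Nat.gcd_dvd_left _ _)
  have hm₂odd : Odd m₂ := hodd.of_dvd_nat (Nat.gcd_dvd_left _ _)
  have hm₁1 : m₁ ≠ 1 := by
    intro h
    rw [h, one_mul] at hprod
    have h3 : m ∣ n + 1 := by rw [hprod]; exact Nat.gcd_dvd_right _ _
    obtain ⟨c, hc⟩ := h3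
    have hc1 : c = 1 := by
      have h4 : c ≠ 0 := by rintro rfl; omega
      by_contra h5
      have h6 : 2 ≤ c := by omega
      have h7 : m * 2 ≤ n + 1 := by rw [hc]; exact Nat.mul_le_mul_left m h6
      have h8 : n ≤ m + 1 := by exact_mod_cast hle
      omega
    rw [hc1, mul_one] at hc
    exact hcon.2 hc
  have hm₂1 : m₂ ≠ 1 := by
    intro h
    rw [h, mul_one] at hprod
    have h3 : m ∣ n₁ := by rw [hprod]; exact Nat.gcd_dvd_right _ _
    obtain ⟨c, hc⟩ := h3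
    have hc1 : c = 1 := by
      have h4 : c ≠ 0 := by rintro rfl; omega
      by_contra h5
      have h6 : 2 ≤ c := by omega
      have h7 : m * 2 ≤ n₁ := by rw [hc]; exact Nat.mul_le_mul_left m h6
      have h8 : n ≤ m + 1 := by exact_mod_cast hle
      omega
    rw [hc1, mul_one] at hc
    exact hcon.1 (by omega)
  have hm₁3 : 3 ≤ m₁ := by obtain ⟨i, hi⟩ := hm₁odd; omega
  have hm₂3 : 3 ≤ m₂ := by obtain ⟨i, hi⟩ := hm₂odd; omega
  have hdv1 : (m₁ : ℤ) ∣ n - 1 := by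
    rw [← hn₁Z]; exact_mod_cast Nat.gcd_dvd_right m n₁
  have hdv2 : (m₂ : ℤ) ∣ n + 1 := by
    have : m₂ ∣ n + 1 := Nat.gcd_dvd_right _ _
    exact_mod_cast this
  rcases Nat.even_or_odd n with heven | hoddn
  · -- even case
    obtain ⟨p, hp, hp1⟩ := Nat.exists_prime_and_dvd hm₁1
    obtain ⟨r, hr, hr1⟩ := Nat.exists_prime_and_dvd hm₂1
    have hp2 : p ≠ 2 := by
      rintro rfl
      exact (Nat.not_even_iff_odd.2 hm₁odd) (even_iff_two_dvd.2 hp1)
    have hr2 : r ≠ 2 := by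
      rintro rfl
      exact (Nat.not_even_iff_odd.2 hm₂odd) (even_iff_two_dvd.2 hr1)
    obtain ⟨a, m₁', hm₁', hma⟩ := Nat.exists_eq_pow_mul_and_not_dvd (by omega : m₁ ≠ 0) p hp.ne_one
    obtain ⟨b, m₂', hm₂', hmb⟩ := Nat.exists_eq_pow_mul_and_not_dvd (by omega : m₂ ≠ 0) r hr.ne_one
    have ha1 : 1 ≤ a := by
      by_contra h
      have h0 : a = 0 := by omega
      rw [h0, pow_zero, one_mul] at hma
      exact hm₁' (hma ▸ hp1)
    have hb1 : 1 ≤ b := by
      by_contra h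
      have h0 : b = 0 := by omega
      rw [h0, pow_zero, one_mul] at hmb
      exact hm₂' (hmb ▸ hr1)
    -- general statement for the Hall divisor
    have main : ∀ (p a r b M' : ℕ), p.Prime → r.Prime → p ≠ 2 → r ≠ 2 → 1 ≤ a → 1 ≤ b →
        Nat.Coprime (p ^ a) (r ^ b) → Nat.Coprime (p ^ a * r ^ b) M' →
        m = (p ^ a * r ^ b) * M' → r ^ b < p ^ a → ∀ σ : ℤ, (σ = 1 ∨ σ = -1) →
        ((p ^ a : ℕ) : ℤ) ∣ n - σ → ((r ^ b : ℕ) : ℤ) ∣ n + σ → False := by
      intro p a r b M' hp hr hp2 hr2 ha hb hco1 hco2 hmH hlt σ hσ hd1 hd2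
      have hM'0 : M' ≠ 0 := by rintro rfl; rw [mul_zero] at hmH; exact hm0 hmH
      have : NeZero (p ^ a) := ⟨pow_ne_zero _ hp.ne_zero⟩
      have : NeZero (r ^ b) := ⟨pow_ne_zero _ hr.ne_zero⟩
      have : NeZero M' := ⟨hM'0⟩
      have : NeZero (p ^ a * r ^ b) := ⟨mul_ne_zero (NeZero.ne _) (NeZero.ne _)⟩
      have : NeZero (p ^ a * r ^ b * M') := ⟨mul_ne_zero (NeZero.ne _) (NeZero.ne _)⟩
      have hpo : Odd (p ^ a) := (hp.odd_of_ne_two hp2).pow
      have hro : Odd (r ^ b) := (hr.odd_of_ne_two hr2).pow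
      have hHodd : Odd (p ^ a * r ^ b) := hpo.mul hro
      have hM'odd : Odd M' := hodd.of_dvd_nat (hmH ▸ Dvd.intro_left _ rfl)
      subst hmH
      obtain ⟨H, hH⟩ : ∃ H : ℕ, H = p ^ a * r ^ b := ⟨_, rfl⟩
      have hHpos : 0 < H := by rw [hH]; exact Nat.pos_of_ne_zero (NeZero.ne _)
      -- the residue
      obtain ⟨n', j, hnj, hn'l, hn'u⟩ : ∃ n' j : ℤ, (n : ℤ) = n' + 2 * j * H ∧
          -(H : ℤ) ≤ n' ∧ n' < H := by
        refine ⟨((n : ℤ) + H) % (2 * H) - H, ((n : ℤ) + H) / (2 * H), ?_, ?_, ?_⟩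
        · have := Int.emod_add_mul_ediv ((n : ℤ) + H) (2 * H)
          linear_combination -this
        · have := Int.emod_nonneg ((n : ℤ) + H) (by omega : (2 * H : ℤ) ≠ 0)
          linarith
        · have := Int.emod_lt_of_pos ((n : ℤ) + H) (by omega : (0 : ℤ) < 2 * H)
          linarith
      have hpH : ((p ^ a : ℕ) : ℤ) ∣ H := by rw [hH]; push_cast; exact Dvd.intro _ rfl
      have hrH : ((r ^ b : ℕ) : ℤ) ∣ H := by rw [hH]; push_cast; exact Dvd.intro_left _ rfl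
      have hd1' : ((p ^ a : ℕ) : ℤ) ∣ n' - σ := by
        have h3 : n' - σ = ((n : ℤ) - σ) - 2 * j * H := by rw [hnj]; ring
        rw [h3]
        exact dvd_sub hd1 (Dvd.dvd.mul_left hpH _)
      have hd2' : ((r ^ b : ℕ) : ℤ) ∣ n' + σ := by
        have h3 : n' + σ = ((n : ℤ) + σ) - 2 * j * H := by rw [hnj]; ring
        rw [h3]
        exact dvd_sub hd2 (Dvd.dvd.mul_left hrH _)
      have hn'even : Even n' := by
        have h3 : n' = (n : ℤ) - 2 * (j * H) := by rw [hnj]; ring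
        rw [h3]
        exact (by exact_mod_cast heven : Even (n : ℤ)).sub (even_two_mul _)
      have hp3 : 3 ≤ p ^ a := by
        obtain ⟨i, hi⟩ := hpo
        have : 1 < p ^ a := Nat.one_lt_pow (by omega) hp.one_lt
        omega
      have hr3 : 3 ≤ r ^ b := by
        obtain ⟨i, hi⟩ := hro
        have : 1 < r ^ b := Nat.one_lt_pow (by omega) hr.one_lt
        omega
      have hnotdvd : ∀ z : ℤ, ((p ^ a : ℕ) : ℤ) ∣ z - σ → ¬ ((p ^ a : ℕ) : ℤ) ∣ z := by
        intro z hz1 hz2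
        have h3 := dvd_sub hz2 hz1
        have e1 : z - (z - σ) = σ := by ring
        rw [e1] at h3
        have h4 : ((p ^ a : ℕ) : ℤ) ∣ 1 := by
          rcases hσ with h | h
          · rwa [h] at h3
          · rw [h] at h3; exact (dvd_neg).1 h3
        have h5 := Int.le_of_dvd (by norm_num) h4
        have : (3 : ℤ) ≤ (p ^ a : ℕ) := by exact_mod_cast hp3
        omega
      have hn'0 : n' ≠ 0 := by
        rintro rfl
        exact hnotdvd 0 hd1' (dvd_zero _)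
      have hn'H : n' ≠ -(H : ℤ) := by
        intro h3
        exact hnotdvd n' hd1' (by rw [h3]; exact (dvd_neg).2 hpH)
      have hn'abs : |n'| < (H : ℤ) := by
        rw [abs_lt]
        exact ⟨lt_of_le_of_ne hn'l (Ne.symm hn'H), hn'u⟩
      rw [hH] at hnj hn'abs
      obtain ⟨⟨G', hG'⟩, -⟩ := hall hco2 hHodd hM'odd hSD n' j hnj hn'abs
      refine mixed_even hp ha hp2 hro hr3 hco1 ?_ hG' hn'0 ?_ hn'even σ hσ hd1' hd2'
      · obtain ⟨i, hi⟩ := hpo
        obtain ⟨k, hk⟩ := hro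
        omega
      · push_cast at hn'abs ⊢
        exact hn'abs
    -- the two cases
    have hpr : p ≠ r := by
      rintro rfl
      have h3 := Nat.dvd_gcd hp1 hr1
      rw [Nat.Coprime.gcd_eq_one hco] at h3
      exact hp.ne_one (Nat.dvd_one.1 h3)
    have hco1 : Nat.Coprime (p ^ a) (r ^ b) :=
      Nat.Coprime.pow _ _ ((Nat.coprime_primes hp hr).2 hpr)
    have hcm : Nat.Coprime m₁' m₂' := by
      refine Nat.Coprime.coprime_dvd_left (hma ▸ Dvd.intro_left _ rfl) ?_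
      exact Nat.Coprime.coprime_dvd_right (hmb ▸ Dvd.intro_left _ rfl) hco
    have hc1 : Nat.Coprime (p ^ a) m₁' :=
      Nat.Coprime.pow_left _ ((Nat.Prime.coprime_iff_not_dvd hp).2 hm₁')
    have hc2 : Nat.Coprime (r ^ b) m₂' :=
      Nat.Coprime.pow_left _ ((Nat.Prime.coprime_iff_not_dvd hr).2 hm₂')
    have hc3 : Nat.Coprime (p ^ a) m₂' := by
      refine Nat.Coprime.coprime_dvd_left (hma ▸ Dvd.intro _ rfl) ?_
      exact Nat.Coprime.coprime_dvd_right (hmb ▸ Dvd.intro_left _ rfl) hco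
    have hc4 : Nat.Coprime (r ^ b) m₁' := by
      refine Nat.Coprime.coprime_dvd_left (hmb ▸ Dvd.intro _ rfl) ?_
      exact Nat.Coprime.coprime_dvd_right (hma ▸ Dvd.intro_left _ rfl) hco.symm
    have hcM1 : Nat.Coprime (p ^ a * r ^ b) (m₁' * m₂') :=
      Nat.Coprime.mul_left (Nat.Coprime.mul_right hc1 hc3) (Nat.Coprime.mul_right hc4 hc2)
    have hpd1 : ((p ^ a : ℕ) : ℤ) ∣ n - 1 := by
      refine dvd_trans ?_ hdv1
      have : p ^ a ∣ m₁ := hma ▸ Dvd.intro _ rfl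
      exact_mod_cast this
    have hrd1 : ((r ^ b : ℕ) : ℤ) ∣ n + 1 := by
      refine dvd_trans ?_ hdv2
      have : r ^ b ∣ m₂ := hmb ▸ Dvd.intro _ rfl
      exact_mod_cast this
    have hne : p ^ a ≠ r ^ b := by
      intro h
      rw [h] at hco1
      have := (Nat.coprime_self _).1 hco1
      have : 1 < r ^ b := Nat.one_lt_pow (by omega) hr.one_lt
      omega
    rcases lt_or_gt_of_ne hne with hlt | hlt
    · refine main r b p a (m₁' * m₂') hr hp hr2 hp2 hb1 ha1 hco1.symm ?_ ?_ hlt (-1)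
        (Or.inr rfl) ?_ ?_
      · rw [mul_comm (r ^ b)]; exact hcM1
      · rw [hprod, hma, hmb]; ring
      · have e1 : (n : ℤ) - -1 = n + 1 := by ring
        rw [e1]; exact hrd1
      · have e1 : (n : ℤ) + -1 = n - 1 := by ring
        rw [e1]; exact hpd1
    · refine main p a r b (m₁' * m₂') hp hr hp2 hr2 ha1 hb1 hco1 hcM1 ?_ hlt 1
        (Or.inl rfl) hpd1 hrd1
      rw [hprod, hma, hmb]; ring
  · -- odd case
    have hnZ : Odd (n : ℤ) := by exact_mod_cast hoddn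
    obtain ⟨c, hc⟩ := hdv1
    obtain ⟨d, hd⟩ := hdv2
    have hceven : Even c := by
      by_contra h
      rw [Int.not_even_iff_odd] at h
      have h3 : Odd ((m₁ : ℤ) * c) := (by exact_mod_cast hm₁odd : Odd (m₁ : ℤ)).mul h
      rw [← hc] at h3
      have h4 : Even ((n : ℤ) - 1) := hnZ.sub_odd odd_one
      exact (Int.not_even_iff_odd.2 h3) h4
    have hdeven : Even d := by
      by_contra h
      rw [Int.not_even_iff_odd] at h
      have h3 : Odd ((m₂ : ℤ) * d) := (by exact_mod_cast hm₂odd : Odd (m₂ : ℤ)).mul h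
      rw [← hd] at h3
      have h4 : Even ((n : ℤ) + 1) := hnZ.add_odd odd_one
      exact (Int.not_even_iff_odd.2 h3) h4
    obtain ⟨j, hj⟩ := hceven
    obtain ⟨k, hk⟩ := hdeven
    have hj2 : Even j := by
      have : NeZero (m₁ * m₂) := ⟨by rw [← hprod]; exact hm0⟩
      have : NeZero m₁ := ⟨by omega⟩
      have : NeZero m₂ := ⟨by omega⟩
      have hgen : ∀ (m : ℕ) [NeZero m] (_ : m = m₁ * m₂) (G : ZMod m → ZMod m → ℤ) (_ : SD G n),
          Even j := by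
        intro m _ hm G hG
        subst hm
        exact (hall hco hm₁odd hm₂odd hG 1 j (by rw [hj] at hc; linear_combination hc)
          (by norm_num; omega)).2 hnZ
      exact hgen m hprod G hSD
    have hk2 : Even k := by
      have : NeZero (m₂ * m₁) := ⟨by rw [mul_comm, ← hprod]; exact hm0⟩
      have : NeZero m₁ := ⟨by omega⟩
      have : NeZero m₂ := ⟨by omega⟩
      have hgen : ∀ (m : ℕ) [NeZero m] (_ : m = m₂ * m₁) (G : ZMod m → ZMod m → ℤ) (_ : SD G n),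
          Even k := by
        intro m _ hm G hG
        subst hm
        exact (hall hco.symm hm₂odd hm₁odd hG (-1) k (by rw [hk] at hd; linear_combination hd)
          (by norm_num; omega)).2 hnZ
      exact hgen m (by rw [hprod, mul_comm]) G hSD
    obtain ⟨j', hj'⟩ := hj2
    obtain ⟨k', hk'⟩ := hk2
    rw [hj, hj'] at hc
    rw [hk, hk'] at hd
    -- `n ≡ 1` and `n ≡ -1` modulo `4`
    have h3 : (n : ℤ) = 1 + 4 * (m₁ * j') := by linear_combination hc
    have h4 : (n : ℤ) = -1 + 4 * (m₂ * k') := by linear_combination hd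
    generalize (m₁ : ℤ) * j' = P at h3
    generalize (m₂ : ℤ) * k' = R at h4
    omega

end Pool.Agent.U338.Inv
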