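import Mathlib
import Pool.Agent.U338.Inv.Aligned
import Pool.Agent.U338.SIC.Classify
import Pool.Agent.R848.SICP.Sic

/-!
# Partial parity on a cyclic factor of odd order
-/

set_option autoImplicit false
set_option linter.unusedSectionVars false

open Finset ComplexConjugate

namespace Pool.Agent.U338.Inv

open Pool.Agent.N392.Ab Pool.Agent.U338.SIC

section general

variable {A B : Type*} [AddCommGroup A] [Fintype A] [AddCommGroup B] [Fintype B]

/-- Parseval -/
theorem pars3 (f : A → ℂ) :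
    ∑ χ : AddChar A ℂ, (∑ i, χ i * f i) * conj (∑ i, χ i * f i) =
      Fintype.card A * ∑ i, f i * conj (f i) := by
  have h1 := pars1 (fun i => f (-i))
  have h2 : ∀ χ : AddChar A ℂ, ∑ i, χ (-i) * f (-i) = ∑ i, χ i * f i := fun χ =>
    Equiv.sum_comp (Equiv.neg A) (fun i => χ i * f i)
  simp_rw [h2] at h1
  have h3 := Equiv.sum_comp (Equiv.neg A) (fun i => f i * conj (f i))
  simp only [Equiv.neg_apply] at h3
  rw [h1, h3]

/-- partial overlaps -/
noncomputable def PS (x : A × B → ℂ) (β : B) (θ : AddChar B ℂ) (k k' : A) : ℂ :=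
  ∑ l, conj (x (k, l)) * x (k', l + β) * θ l

theorem ov_PS (x : A × B → ℂ) (a : A) (β : B) (χ : AddChar A ℂ) (θ : AddChar B ℂ) :
    ov x (a, β) (c1 χ + c2 θ) = ∑ k, χ k * PS x β θ k (k + a) := by
  unfold ov PS
  rw [Fintype.sum_prod_type]
  refine Finset.sum_congr rfl fun k _ => ?_
  rw [Finset.mul_sum]
  refine Finset.sum_congr rfl fun l _ => ?_
  rw [AddChar.add_apply, c1_apply, c2_apply, Prod.mk_add_mk]
  ring

theorem sum_PS (x : A × B → ℂ) (β : B) (θ : AddChar B ℂ) :
    ∑ a : A, ∑ χ : AddChar A ℂ, ov x (a, β) (c1 χ + c2 θ) * conj (ov x (a, β) (c1 χ + c2 θ)) =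
      Fintype.card A * ∑ k, ∑ k', PS x β θ k k' * conj (PS x β θ k k') := by
  have h1 : ∀ a : A, ∑ χ : AddChar A ℂ, ov x (a, β) (c1 χ + c2 θ) *
      conj (ov x (a, β) (c1 χ + c2 θ)) =
      Fintype.card A * ∑ k, PS x β θ k (k + a) * conj (PS x β θ k (k + a)) := by
    intro a
    simp_rw [ov_PS]
    exact pars3 _
  rw [Finset.sum_congr rfl fun a _ => h1 a, ← Finset.mul_sum, Finset.sum_comm]
  congr 1
  refine Finset.sum_congr rfl fun k _ => ?_
  exact Equiv.sum_comp (Equiv.addLeft k) (fun k' => PS x β θ k k' * conj (PS x β θ k k'))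

variable {x : A × B → ℂ}

theorem c2_ne {θ : AddChar B ℂ} (h : θ ≠ 0) (χ : AddChar A ℂ) : c1 (B := B) χ + c2 θ ≠ 0 := by
  intro h1
  apply h
  ext l
  have := DFunLike.congr_fun h1 ((0 : A), l)
  rw [AddChar.add_apply, c1_apply, c2_apply] at this
  simpa using this

theorem c12_ne {θ : AddChar B ℂ} {χ : AddChar A ℂ} (h : χ ≠ 0) : c1 (B := B) χ + c2 θ ≠ 0 := by
  intro h1
  apply h
  ext k
  have := DFunLike.congr_fun h1 (k, (0 : B))
  rw [AddChar.add_apply, c1_apply, c2_apply] at this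
  simpa using this

/-- a parity of the first factor cannot be twisted by a displacement of the second one -/
theorem no_twist (h1 : ov x 0 0 = 1)
    (h2 : ∀ (a : A × B) (χ : AddChar (A × B) ℂ), (a ≠ 0 ∨ χ ≠ 0) →
      ov x a χ * conj (ov x a χ) = 1 / ((Fintype.card (A × B) : ℂ) + 1))
    (c : A) (β : B) (η : AddChar A ℂ) (θ : AddChar B ℂ) (lam : ℂ)
    (hs : ∀ k l, x (c - k, l + β) = lam * (η k * θ l * x (k, l))) : β = 0 ∧ θ = 0 := by
  classical
  by_contra hcon
  have hne : β ≠ 0 ∨ -θ ≠ 0 := by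
    by_contra h
    push Not at h
    exact hcon ⟨h.1, neg_eq_zero.1 h.2⟩
  set D : ℂ := (Fintype.card (A × B) : ℂ) + 1 with hD
  have hD0 : D ≠ 0 := card1_ne
  -- the modulus of `lam`
  have hlam : lam * conj lam = 1 := by
    have h3 : ov x 0 0 = lam * conj lam * ov x 0 0 := by
      set E : A × B ≃ A × B := (Equiv.subLeft c).prodCongr (Equiv.addRight β) with hE
      have h4 : ov x 0 0 = ∑ p, conj (x (E p)) * x (E p) := by
        unfold ov
        rw [← Equiv.sum_comp E]
        refine Finset.sum_congr rfl fun p _ => ?_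
        simp
      conv_lhs => rw [h4]
      unfold ov
      rw [Finset.mul_sum]
      refine Finset.sum_congr rfl fun p _ => ?_
      obtain ⟨k, l⟩ := p
      have e1 : E (k, l) = (c - k, l + β) := rfl
      rw [e1, hs, map_mul, map_mul, map_mul, conj_char, conj_char]
      have e2 := char_mul_neg η k
      have e3 := char_mul_neg θ l
      simp only [add_zero, AddChar.zero_apply, mul_one]
      linear_combination (lam * conj lam * conj (x (k, l)) * x (k, l) * θ l * θ (-l)) * e2 +
        (lam * conj lam * conj (x (k, l)) * x (k, l)) * e3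
    rw [h1, mul_one] at h3
    exact h3.symm
  -- the symmetry
  have hsym : ∑ k, ∑ k', PS x β (-θ) k k' * conj (PS x β (-θ) k k') =
      ∑ k, ∑ k', PS x 0 0 k k' * conj (PS x 0 0 k k') := by
    refine Finset.sum_congr rfl fun k _ => ?_
    rw [← Equiv.sum_comp (Equiv.subLeft c)]
    refine Finset.sum_congr rfl fun k' _ => ?_
    simp only [Equiv.subLeft_apply]
    have h3 : PS x β (-θ) k (c - k') = lam * η k' * PS x 0 0 k k' := by
      unfold PS
      rw [Finset.mul_sum]
      refine Finset.sum_congr rfl fun l _ => ?_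
      rw [hs, AddChar.neg_apply, add_zero, AddChar.zero_apply]
      have e3 := char_mul_neg θ l
      linear_combination (conj (x (k, l)) * lam * η k' * x (k', l)) * e3
    rw [h3, map_mul, map_mul, conj_char]
    have e2 := char_mul_neg η k'
    linear_combination (PS x 0 0 k k' * conj (PS x 0 0 k k') * η k' * η (-k')) * hlam +
      (PS x 0 0 k k' * conj (PS x 0 0 k k')) * e2
  -- the two sums
  have hN1 : ∑ a : A, ∑ χ : AddChar A ℂ, ov x (a, β) (c1 χ + c2 (-θ)) *
      conj (ov x (a, β) (c1 χ + c2 (-θ))) = (Fintype.card A : ℂ) ^ 2 / D := by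
    have h3 : ∀ (a : A) (χ : AddChar A ℂ), ov x (a, β) (c1 χ + c2 (-θ)) *
      conj (ov x (a, β) (c1 χ + c2 (-θ))) = 1 / D := by
      intro a χ
      apply h2
      rcases hne with h | h
      · left
        intro h4
        exact h (congrArg Prod.snd h4)
      · exact Or.inr (c2_ne h χ)
    simp_rw [h3]
    simp only [Finset.sum_const, Finset.card_univ, AddChar.card_eq, nsmul_eq_mul]
    ring
  have hN0 : ∑ a : A, ∑ χ : AddChar A ℂ, ov x (a, 0) (c1 χ + c2 0) *
      conj (ov x (a, 0) (c1 χ + c2 0)) = (Fintype.card A : ℂ) ^ 2 / D + (1 - 1 / D) := by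
    have h3 : ∀ (a : A) (χ : AddChar A ℂ), ov x (a, 0) (c1 χ + c2 0) *
      conj (ov x (a, 0) (c1 χ + c2 0)) = 1 / D +
        if a = 0 then (if χ = 0 then 1 - 1 / D else 0) else 0 := by
      intro a χ
      by_cases ha : a = 0
      · by_cases hχ : χ = 0
        · have e1 : (c1 (B := B) (0 : AddChar A ℂ) + c2 0 : AddChar (A × B) ℂ) = 0 := by
            ext ⟨k, l⟩
            rw [AddChar.add_apply, c1_apply, c2_apply]
            simp
          have e2 : ((0 : A), (0 : B)) = 0 := rfl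
          rw [if_pos ha, if_pos hχ, ha, hχ, e1, e2, h1]
          simp
        · rw [if_pos ha, if_neg hχ, add_zero]
          exact h2 _ _ (Or.inr (c12_ne hχ))
      · rw [if_neg ha, add_zero]
        apply h2
        left
        intro h4
        exact ha (congrArg Prod.fst h4)
    simp_rw [h3, Finset.sum_add_distrib]
    rw [Finset.sum_eq_single (0 : A) (f := fun a => ∑ χ : AddChar A ℂ,
      (if a = 0 then (if χ = 0 then 1 - 1 / D else 0) else 0))]
    · simp only [Finset.sum_const, Finset.card_univ, AddChar.card_eq, if_true,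
        Finset.sum_ite_eq', Finset.mem_univ, nsmul_eq_mul]
      ring
    · intro k _ hk
      simp [hk]
    · simp
  rw [sum_PS, hsym] at hN1
  rw [sum_PS, hN1] at hN0
  have h3 : 1 - 1 / D = 0 := by linear_combination -hN0
  rw [sub_eq_zero, eq_div_iff hD0, one_mul, hD] at h3
  have h4 : (Fintype.card (A × B) : ℂ) = 0 := by linear_combination h3
  exact card_ne h4

/-- centring -/
theorem centre' (hodd : Odd (Fintype.card A)) (h1 : ov x 0 0 = 1)
    (h2 : ∀ (a : A × B) (χ : AddChar (A × B) ℂ), (a ≠ 0 ∨ χ ≠ 0) →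
      ov x a χ * conj (ov x a χ) = 1 / ((Fintype.card (A × B) : ℂ) + 1))
    (c : A) (η : AddChar A ℂ) (lam : ℂ)
    (hs : ∀ k l, x (c - k, l) = lam * (η k * x (k, l))) :
    ∃ y : A × B → ℂ, ov y 0 0 = 1 ∧
      (∀ (a : A × B) (χ : AddChar (A × B) ℂ), (a ≠ 0 ∨ χ ≠ 0) →
        ov y a χ * conj (ov y a χ) = 1 / ((Fintype.card (A × B) : ℂ) + 1)) ∧
      ∃ e : ℤ, (e = 1 ∨ e = -1) ∧ ∀ k b, y (-k, b) = (e : ℂ) * y (k, b) := by
  obtain ⟨i, hi⟩ := hodd
  obtain ⟨m, hm⟩ : ∃ m : A, m + m = c := ⟨(i + 1) • c, by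
    have : (i + 1) • c + (i + 1) • c = Fintype.card A • c + c := by
      rw [hi, add_smul, add_smul, one_smul, mul_smul, two_smul]
      abel
    rw [this, card_nsmul_eq_zero, zero_add]⟩
  obtain ⟨ψ, hψ⟩ : ∃ ψ : AddChar A ℂ, ψ + ψ = η := ⟨(i + 1) • η, by
    have h4 : Fintype.card A • η = 0 := by
      ext a
      rw [AddChar.nsmul_apply, ← AddChar.map_nsmul_eq_pow, card_nsmul_eq_zero,
        AddChar.map_zero_eq_one, AddChar.zero_apply]
    have : (i + 1) • η + (i + 1) • η = Fintype.card A • η + η := by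
      rw [hi, add_smul, add_smul, one_smul, mul_smul, two_smul]
      abel
    rw [this, h4, zero_add]⟩
  obtain ⟨h5, h6⟩ := trans_hyp h1 h2 (m, 0) (c1 ψ)
  refine ⟨fun k => c1 ψ k * x (k + (m, 0)), h5, h6, ?_⟩
  have hpar : ∀ k b, c1 (B := B) ψ (-k, b) * x ((-k, b) + (m, 0)) =
      (lam * η m) * (c1 (B := B) ψ (k, b) * x ((k, b) + (m, 0))) := by
    intro k b
    rw [c1_apply, c1_apply, Prod.mk_add_mk, Prod.mk_add_mk, add_zero]
    have h7 := hs (k + m) b
    have e1 : c - (k + m) = -k + m := by rw [← hm]; abel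
    rw [e1, AddChar.map_add_eq_mul] at h7
    rw [h7]
    have e2 : ψ (-k) * η k = ψ k := by
      rw [← hψ, AddChar.add_apply]
      have e4 := char_mul_neg ψ k
      linear_combination (ψ k) * e4
    linear_combination (lam * η m * x (k + m, b)) * e2
  obtain ⟨⟨k, b⟩, hk⟩ : ∃ p : A × B, c1 (B := B) ψ p * x (p + (m, 0)) ≠ 0 := by
    by_contra h
    push Not at h
    have h7 : ov (fun k => c1 (B := B) ψ k * x (k + (m, 0))) 0 0 = 0 := by
      unfold ov
      refine Finset.sum_eq_zero fun k _ => ?_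
      have := h k
      simp only [this]
      simp
    rw [h7] at h5
    exact zero_ne_one h5
  have h7 := hpar (-k) b
  rw [neg_neg, hpar k b] at h7
  have h8 : ((lam * η m) * (lam * η m) - 1) *
      (c1 (B := B) ψ (k, b) * x ((k, b) + (m, 0))) = 0 := by
    linear_combination -h7
  have h9 := (mul_eq_zero.1 h8).resolve_right hk
  rcases mul_self_eq_one_iff.1 (by linear_combination h9 :
    (lam * η m) * (lam * η m) = 1) with h | h
  · exact ⟨1, Or.inl rfl, fun k b => by simp only; rw [hpar, h]; simp⟩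
  · exact ⟨-1, Or.inr rfl, fun k b => by simp only; rw [hpar, h]; simp⟩

end general

section cyclic

variable {m : ℕ} [NeZero m] {B : Type*} [AddCommGroup B] [Fintype B] {x : ZMod m × B → ℂ}

/-- **Partial parity on a cyclic factor of odd order.** -/
theorem part_cyclic (hodd : Odd m) (hm1 : m ≠ 1) (h1 : ov x 0 0 = 1)
    (h2 : ∀ (a : ZMod m × B) (χ : AddChar (ZMod m × B) ℂ), (a ≠ 0 ∨ χ ≠ 0) →
      ov x a χ * conj (ov x a χ) = 1 / ((Fintype.card (ZMod m × B) : ℂ) + 1))
    (e : ℤ) (he : e = 1 ∨ e = -1) (hs : ∀ k b, x (-k, b) = (e : ℂ) * x (k, b)) :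
    ∃ n : ℕ, n ^ 2 = m * Fintype.card B + 1 ∧ ((n = m + 1 ∧ Fintype.card B = m + 2) ∨
      (n + 1 = m ∧ Fintype.card B + 2 = m)) := by
  classical
  have hm0 : 0 < m := Nat.pos_of_ne_zero (NeZero.ne m)
  have hcardA : Fintype.card (ZMod m) = m := ZMod.card m
  have hoddA : Odd (Fintype.card (ZMod m)) := by rw [hcardA]; exact hodd
  obtain ⟨n, hn, hle⟩ := part_main h1 h2 e he hs (fun k hk => odd_order_no_two hoddA k hk)
    (by rw [hcardA]; omega)
  rw [hcardA] at hle
  have hn' : n ^ 2 = m * Fintype.card B + 1 := by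
    rw [hn, Fintype.card_prod, hcardA]
  have hBpos : 0 < Fintype.card B := Fintype.card_pos
  have hn2 : 2 ≤ n := by
    by_contra h
    have h3 : n ≤ 1 := by omega
    have h4 : n ^ 2 ≤ 1 ^ 2 := Nat.pow_le_pow_left h3 2
    have : 0 < m * Fintype.card B := Nat.mul_pos hm0 hBpos
    omega
  have hnC : (n : ℂ) ≠ 0 := by
    have : n ≠ 0 := by omega
    exact_mod_cast this
  set χ : AddChar (ZMod m) ℂ := ZMod.stdAddChar with hχ
  have hprim : χ.IsPrimitive := ZMod.isPrimitive_stdAddChar m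
  have hl : (e : ℂ) = 1 ∨ (e : ℂ) = -1 := by
    rcases he with h | h <;> rw [h] <;> simp
  have hcl : conj (e : ℂ) = e := map_intCast _ _
  have hll : conj (e : ℂ) * e = 1 := by
    rw [hcl]; rcases hl with h | h <;> rw [h] <;> norm_num
  set f : B → ZMod m → ℂ := fun s j => x (j, s) with hf
  have hfl : ∀ s j, f s (-j) = e * f s j := fun s j => hs j s
  set ρ : ZMod m → ZMod m → ℂ := fun c b => ∑ s, R848.SICP.r1 χ (f s) c b with hρ
  have hρreal : ∀ c b, conj (ρ c b) = ρ c b := by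
    intro c b
    simp only [hρ]
    rw [map_sum]
    exact Finset.sum_congr rfl fun s _ => R848.SICP.r1_real χ (f s) e (hfl s) hll c b
  have hρdual : ∀ x y, ∑ c, ∑ b, χ (b * x - c * y) * ρ c b = m * e * ρ x y := by
    intro x y
    have e1 : ∀ c b, χ (b * x - c * y) * ρ c b =
        ∑ s, χ (b * x - c * y) * R848.SICP.r1 χ (f s) c b := by
      intro c b
      simp only [hρ]
      rw [Finset.mul_sum]
    simp_rw [e1]
    have e2 : ∑ c, ∑ b, ∑ s, χ (b * x - c * y) * R848.SICP.r1 χ (f s) c b =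
        ∑ s, ∑ c, ∑ b, χ (b * x - c * y) * R848.SICP.r1 χ (f s) c b := by
      calc ∑ c, ∑ b, ∑ s, χ (b * x - c * y) * R848.SICP.r1 χ (f s) c b
          = ∑ c, ∑ s, ∑ b, χ (b * x - c * y) * R848.SICP.r1 χ (f s) c b :=
            Finset.sum_congr rfl (fun _ _ => Finset.sum_comm)
        _ = _ := Finset.sum_comm
    rw [e2, Finset.sum_congr rfl (fun s _ => R848.SICP.r1_dual χ hprim (f s) e (hfl s) x y),
      ← Finset.mul_sum, hcl]
  -- relation to overlaps
  have hρov : ∀ c b : ZMod m, conj (ov x (c + c, 0) (c1 (AddChar.mulShift χ (-b)))) =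
      χ (b * -c) * ρ c b := by
    intro c b
    rw [ov_slice, map_sum]
    simp only [hρ]
    rw [Finset.mul_sum]
    refine Finset.sum_congr rfl fun s _ => ?_
    unfold cov R848.SICP.r1
    rw [map_sum, Finset.mul_sum, ← Equiv.sum_comp (Equiv.subRight c)]
    refine Finset.sum_congr rfl fun j _ => ?_
    simp only [Equiv.subRight_apply, hf]
    rw [map_mul, map_mul, Complex.conj_conj, AddChar.mulShift_apply, conj_char]
    have e1 : j - c + (c + c) = j + c := by ring
    have e2 : χ (-(-b * (j - c))) = χ (b * -c) * χ (b * j) := by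
      rw [← AddChar.map_add_eq_mul]
      congr 1
      ring
    rw [e1, e2]
    ring
  have hρ0 : ρ 0 0 = 1 := by
    have h4 := hρov 0 0
    have h5 : c1 (B := B) (AddChar.mulShift χ (-(0 : ZMod m))) = 0 := by
      ext ⟨k, l⟩
      rw [c1_apply, AddChar.mulShift_apply]
      simp
    have h6 : ((0 : ZMod m) + 0, (0 : B)) = 0 := by rw [add_zero]; rfl
    rw [h5, h6, h1, map_one, neg_zero, mul_zero, AddChar.map_zero_eq_one, one_mul] at h4
    exact h4.symm
  have h20 : ∀ c : ZMod m, c + c = 0 → c = 0 := fun c hc => odd_order_no_two hoddA c hc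
  have hρ1 : ∀ c b, ¬ (c = 0 ∧ b = 0) → ((n : ℂ) * ρ c b) = 1 ∨ ((n : ℂ) * ρ c b) = -1 := by
    intro c b hcb
    have h5 : ((c + c, 0) : ZMod m × B) ≠ 0 ∨
        c1 (B := B) (AddChar.mulShift χ (-b)) ≠ 0 := by
      by_cases hc : c = 0
      · right
        apply c1_ne
        have hb : b ≠ 0 := fun h => hcb ⟨hc, h⟩
        exact hprim (neg_ne_zero.2 hb)
      · left
        intro h6
        exact hc (h20 c (congrArg Prod.fst h6))
    have h4 := h2 _ _ h5
    have h6 : ρ c b * ρ c b = 1 / ((Fintype.card (ZMod m × B) : ℂ) + 1) := by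
      rw [← h4]
      have h7 := hρov c b
      have h8 := congrArg conj h7
      rw [Complex.conj_conj, map_mul, hρreal, conj_char] at h8
      rw [h7, h8]
      have h9 := char_mul_neg χ (b * -c)
      linear_combination (-(ρ c b * ρ c b)) * h9
    have h7 : ((n : ℂ) * ρ c b) ^ 2 = 1 := by
      have h8 : (Fintype.card (ZMod m × B) : ℂ) + 1 = (n : ℂ) ^ 2 := by exact_mod_cast hn.symm
      rw [mul_pow, sq (ρ c b), h6, h8, mul_one_div, div_self (pow_ne_zero 2 hnC)]
    exact sq_eq_one_iff.1 h7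
  have hG : ∀ c b, ∃ g : ℤ, (¬ (c = 0 ∧ b = 0) → g = 1 ∨ g = -1) ∧ (c = 0 ∧ b = 0 → g = n) ∧
      (g : ℂ) = n * ρ c b := by
    intro c b
    by_cases hcb : c = 0 ∧ b = 0
    · refine ⟨n, fun h => absurd hcb h, fun _ => rfl, ?_⟩
      rw [hcb.1, hcb.2, hρ0, mul_one]
      push_cast; rfl
    · rcases hρ1 c b hcb with h | h
      · exact ⟨1, fun _ => Or.inl rfl, fun h' => absurd h' hcb, by rw [h]; simp⟩
      · exact ⟨-1, fun _ => Or.inr rfl, fun h' => absurd h' hcb, by rw [h]; simp⟩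
  choose G hG1 hG2 hG3 using hG
  have hGdual : ∀ x y, ∑ c, ∑ b, χ (b * x - c * y) * (G c b : ℂ) =
      ((e * (m : ℕ) : ℤ) : ℂ) * G x y := by
    intro x y
    rw [hG3 x y]
    have h4 := hρdual x y
    have e1 : ∑ c, ∑ b, χ (b * x - c * y) * (G c b : ℂ) =
        n * ∑ c, ∑ b, χ (b * x - c * y) * ρ c b := by
      rw [Finset.mul_sum]
      apply Finset.sum_congr rfl; intro c _
      rw [Finset.mul_sum]
      apply Finset.sum_congr rfl; intro b _
      rw [hG3]; ring
    rw [e1, h4]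
    push_cast
    ring
  have hmain := aligned hm1 hodd χ hprim n hn2 (by
    refine ⟨Fintype.card B, ?_⟩
    have : ((n : ℤ)) ^ 2 = m * Fintype.card B + 1 := by exact_mod_cast hn'
    rw [this]; ring) e he G hG1 (hG2 0 0 ⟨rfl, rfl⟩) hGdual
  refine ⟨n, hn', ?_⟩
  rcases hmain with h | h
  · left
    refine ⟨h, ?_⟩
    rw [h] at hn'
    have h4 : m * Fintype.card B = m * (m + 2) := by nlinarith
    exact Nat.eq_of_mul_eq_mul_left hm0 h4
  · right
    refine ⟨h, ?_⟩
    have h5 : (n : ℤ) = m - 1 := by omega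
    have h6 : (n : ℤ) ^ 2 = m * Fintype.card B + 1 := by exact_mod_cast hn'
    rw [h5] at h6
    have h4 : (m : ℤ) * Fintype.card B = m * (m - 2) := by linear_combination -h6
    have h7 := mul_left_cancel₀ (by exact_mod_cast hm0.ne' : (m : ℤ) ≠ 0) h4
    omega

end cyclic

end Pool.Agent.U338.Inv
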