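import Mathlib
import Pool.Agent.U338.Inv.Part2
import Pool.Agent.R848.SICP.Final

/-!
# Involutive symmetries of Weyl–Heisenberg fiducials
-/

set_option autoImplicit false
set_option linter.unusedSectionVars false

open Finset ComplexConjugate

namespace Pool.Agent.U338.Inv

open Pool.Agent.R503.SIC (e Fid Sym)

variable {d : ℕ} [NeZero d]

/-- all characters are shifts of the standard one -/
theorem exists_shift (χ : AddChar (ZMod d) ℂ) :
    ∃ b : ZMod d, χ = AddChar.mulShift ZMod.stdAddChar b := by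
  have hinj := AddChar.to_mulShift_inj_of_isPrimitive (ZMod.isPrimitive_stdAddChar d)
  have hbij : Function.Bijective (AddChar.mulShift (ZMod.stdAddChar (N := d))) := by
    rw [Fintype.bijective_iff_injective_and_card]
    exact ⟨hinj, by rw [AddChar.card_eq]⟩
  obtain ⟨b, hb⟩ := hbij.2 χ
  exact ⟨b, hb.symm⟩

/-- splitting `d` according to an involution `k` for which `k - 1` has odd order -/
theorem split (k : ZMod d) (hk : k * k = 1) (hk1 : k ≠ 1) (hodd : Odd (addOrderOf (k - 1))) :
    ∃ (m D : ℕ) (_ : m.Coprime D) (_ : d = m * D), m ≠ 1 ∧ Odd m ∧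
      ∀ K : ℕ, (K : ZMod d) = k → (K : ZMod m) = -1 ∧ (K : ZMod D) = 1 := by
  set m := addOrderOf (k - 1) with hm
  have hmd : m ∣ d := by
    apply addOrderOf_dvd_of_nsmul_eq_zero
    rw [nsmul_eq_mul, ZMod.natCast_self, zero_mul]
  obtain ⟨D, hD⟩ := hmd
  have hd0 : d ≠ 0 := NeZero.ne d
  have hm0 : m ≠ 0 := by rintro h; rw [h, zero_mul] at hD; exact hd0 hD
  have hD0 : D ≠ 0 := by rintro rfl; rw [mul_zero] at hD; exact hd0 hD
  -- the two congruences
  have hKD : ∀ K : ℕ, (K : ZMod d) = k → (D : ℤ) ∣ (K : ℤ) - 1 := by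
    intro K hK
    have h1 : m • (k - 1) = 0 := addOrderOf_nsmul_eq_zero _
    have h2 : (((m : ℤ) * ((K : ℤ) - 1) : ℤ) : ZMod d) = 0 := by
      push_cast
      rw [hK, ← nsmul_eq_mul, h1]
    have h3 := (ZMod.intCast_zmod_eq_zero_iff_dvd _ _).1 h2
    rw [hD] at h3
    push_cast at h3
    exact (mul_dvd_mul_iff_left (by exact_mod_cast hm0)).1 h3
  have hKm : ∀ K : ℕ, (K : ZMod d) = k → m ∣ K + 1 := by
    intro K hK
    apply addOrderOf_dvd_of_nsmul_eq_zero
    rw [nsmul_eq_mul]
    push_cast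
    rw [hK]
    linear_combination hk
  have hco : m.Coprime D := by
    rw [Nat.coprime_iff_gcd_eq_one]
    by_contra hne
    obtain ⟨p, hp, hpd⟩ := Nat.exists_prime_and_dvd hne
    have h1 : p ∣ m := hpd.trans (Nat.gcd_dvd_left _ _)
    have h2 : p ∣ D := hpd.trans (Nat.gcd_dvd_right _ _)
    have h3 : (p : ℤ) ∣ (k.val : ℤ) - 1 :=
      (Int.natCast_dvd_natCast.2 h2).trans (hKD k.val (ZMod.natCast_zmod_val k))
    have h4 : (p : ℤ) ∣ (k.val : ℤ) + 1 := by
      have := h1.trans (hKm k.val (ZMod.natCast_zmod_val k))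
      exact_mod_cast this
    have h5 : (p : ℤ) ∣ 2 := by
      have := dvd_sub h4 h3
      have e1 : (k.val : ℤ) + 1 - ((k.val : ℤ) - 1) = 2 := by ring
      rwa [e1] at this
    have h6 : p ∣ 2 := by exact_mod_cast h5
    have h7 : p = 2 := (Nat.prime_dvd_prime_iff_eq hp Nat.prime_two).1 h6
    rw [h7] at h1
    exact (Nat.not_even_iff_odd.2 hodd) (even_iff_two_dvd.2 h1)
  refine ⟨m, D, hco, hD, ?_, hodd, fun K hK => ⟨?_, ?_⟩⟩
  · intro h
    rw [hm, AddMonoid.addOrderOf_eq_one_iff] at h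
    exact hk1 (sub_eq_zero.1 h)
  · have h4 : ((K + 1 : ℕ) : ZMod m) = 0 := (ZMod.natCast_eq_zero_iff _ _).2 (hKm K hK)
    push_cast at h4
    linear_combination h4
  · have h4 : (((K : ℤ) - 1 : ℤ) : ZMod D) = 0 :=
      (ZMod.intCast_zmod_eq_zero_iff_dvd _ _).2 (hKD K hK)
    push_cast at h4
    linear_combination h4

/-- **Involutions.** -/
theorem dil {ψ : ZMod d → ℂ} (hψ : Fid ψ) {k a b : ZMod d} {c : ℂ}
    (hs : Sym ψ k a b c) (hk1 : k ≠ 1) (hodd : Odd (addOrderOf (k - 1))) :
    Odd d ∧ ∃ n : ℕ, n ^ 2 = d + 1 ∧ (k = n ∨ k = -n) := by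
  classical
  obtain ⟨m, D, hco, h, hm1, hmodd, hK⟩ := split k hs.1 hk1 hodd
  subst h
  have hne : m * D ≠ 0 := NeZero.ne _
  have : NeZero m := ⟨fun h => hne (by rw [h, zero_mul])⟩
  have : NeZero D := ⟨fun h => hne (by rw [h, mul_zero])⟩
  have hkE : ZMod.chineseRemainder hco k = (-1, 1) := by
    obtain ⟨h1, h2⟩ := hK k.val (ZMod.natCast_zmod_val k)
    rw [← ZMod.natCast_zmod_val k, map_natCast]
    exact Prod.ext h1 h2
  set E := ZMod.chineseRemainder hco with hE
  obtain ⟨χ1, χ2, hp1, hp2, h3⟩ := R848.SICP.crt_char hco (ZMod.stdAddChar (N := m * D))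
    (ZMod.isPrimitive_stdAddChar _)
  set x : ZMod m × ZMod D → ℂ := fun p => ψ (E.symm p) with hx
  have hcard : Fintype.card (ZMod m × ZMod D) = m * D := by
    rw [Fintype.card_prod, ZMod.card, ZMod.card]
  -- overlaps
  have hov : ∀ (A : ZMod m × ZMod D) (χ : AddChar (ZMod m × ZMod D) ℂ),
      ∃ z : ZMod (m * D), (z = 0 → χ = 0) ∧
        conj (N392.Ab.ov x A χ) = R503.SIC.ov ψ (E.symm A) z := by
    intro A χ
    obtain ⟨z, hz⟩ := exists_shift (χ.compAddMonoidHom (E : ZMod (m * D) →+ ZMod m × ZMod D))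
    have hz' : ∀ j, χ (E j) = ZMod.stdAddChar (z * j) := by
      intro j
      have := DFunLike.congr_fun hz j
      rw [AddChar.mulShift_apply] at this
      exact this
    refine ⟨-z, ?_, ?_⟩
    · intro h0
      ext p
      have h4 := hz' (E.symm p)
      rw [E.apply_symm_apply, neg_eq_zero.1 h0, zero_mul, AddChar.map_zero_eq_one] at h4
      rw [h4, AddChar.zero_apply]
    · unfold N392.Ab.ov R503.SIC.ov
      rw [map_sum, ← Equiv.sum_comp E.toEquiv]
      refine Finset.sum_congr rfl fun j _ => ?_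
      have e1 : E.toEquiv j = E j := rfl
      have e2 : E.symm (E j + A) = j + E.symm A := by
        rw [map_add, E.symm_apply_apply]
      simp only [e1, hx]
      rw [map_mul, map_mul, Complex.conj_conj, E.symm_apply_apply, e2, N392.Ab.conj_char]
      have e3 : χ (-E j) = e (-z * j) := by
        rw [← map_neg, hz', e]
        congr 1
        ring
      rw [e3]
      ring
  have h1 : N392.Ab.ov x 0 0 = 1 := by
    have h4 : N392.Ab.ov x 0 0 = ((∑ j, ‖ψ j‖ ^ 2 : ℝ) : ℂ) := by
      unfold N392.Ab.ov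
      rw [← Equiv.sum_comp E.toEquiv]
      push_cast
      refine Finset.sum_congr rfl fun j _ => ?_
      have e1 : x (E.toEquiv j) = ψ j := by
        simp only [hx]
        exact congrArg ψ (E.symm_apply_apply j)
      rw [add_zero, e1]
      refine (mul_one (conj (ψ j) * ψ j)).trans ?_
      rw [mul_comm, Complex.mul_conj, Complex.normSq_eq_norm_sq]
      push_cast
      rfl
    rw [h4, hψ.1]
    simp
  have h2 : ∀ (A : ZMod m × ZMod D) (χ : AddChar (ZMod m × ZMod D) ℂ), (A ≠ 0 ∨ χ ≠ 0) →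
      N392.Ab.ov x A χ * conj (N392.Ab.ov x A χ) =
        1 / ((Fintype.card (ZMod m × ZMod D) : ℂ) + 1) := by
    intro A χ hAχ
    obtain ⟨z, hz0, hz⟩ := hov A χ
    have h4 : (E.symm A, z) ≠ (0, 0) := by
      intro h5
      rw [Prod.mk.injEq, map_eq_zero_iff E.symm E.symm.injective] at h5
      rcases hAχ with h6 | h6
      · exact h6 h5.1
      · exact h6 (hz0 h5.2)
    have h5 := hψ.2 _ _ h4
    rw [← hz, Complex.norm_conj] at h5
    rw [Complex.mul_conj, Complex.normSq_eq_norm_sq, h5, hcard]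
    push_cast
    rfl
  -- the symmetry
  set η : AddChar (ZMod m) ℂ := AddChar.mulShift χ1 (E b).1 with hη
  set θ : AddChar (ZMod D) ℂ := AddChar.mulShift χ2 (E b).2 with hθ
  have hsym : ∀ j l, x ((E a).1 - j, l + (E a).2) = c * (η j * θ l * x (j, l)) := by
    intro j l
    have h4 := hs.2 (E.symm (j, l))
    have e1 : k * E.symm (j, l) + a = E.symm ((E a).1 - j, l + (E a).2) := by
      apply E.injective
      rw [map_add, map_mul, hkE, E.apply_symm_apply, E.apply_symm_apply]
      ext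
      · simp only [Prod.fst_add, Prod.fst_mul]; ring
      · simp only [Prod.snd_add, Prod.snd_mul]; ring
    have e2 : e (b * E.symm (j, l)) = η j * θ l := by
      have e3 : b * E.symm (j, l) = E.symm ((E b).1 * j, (E b).2 * l) := by
        apply E.injective
        rw [map_mul, E.apply_symm_apply, E.apply_symm_apply]
        rfl
      rw [e3, e, h3, hη, hθ, AddChar.mulShift_apply, AddChar.mulShift_apply]
    simp only [hx]
    rw [← e1, h4, e2]
    ring
  obtain ⟨hβ, hθ0⟩ := no_twist h1 h2 (E a).1 (E a).2 η θ c hsym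
  have hsym' : ∀ j l, x ((E a).1 - j, l) = c * (η j * x (j, l)) := by
    intro j l
    have := hsym j l
    rw [hβ, hθ0, add_zero, AddChar.zero_apply, mul_one] at this
    exact this
  have hoddA : Odd (Fintype.card (ZMod m)) := by rw [ZMod.card]; exact hmodd
  obtain ⟨y, hy1, hy2, ε, hε, hys⟩ := centre' hoddA h1 h2 (E a).1 η c hsym'
  obtain ⟨n, hn, hcases⟩ := part_cyclic hmodd hm1 hy1 hy2 ε hε hys
  rw [ZMod.card] at hn hcases
  rcases hcases with ⟨h4, hD⟩ | ⟨h4, hD⟩
  · refine ⟨hmodd.mul (by rw [hD]; exact hmodd.add_even even_two), n, hn, Or.inr ?_⟩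
    apply E.injective
    rw [hkE, map_neg, map_natCast]
    have e1 : ((n : ℕ) : ZMod m) = 1 := by
      rw [h4]; push_cast; rw [ZMod.natCast_self, zero_add]
    have e2 : ((n : ℕ) : ZMod D) = -1 := by
      have : n + 1 = D := by omega
      have h3 : ((n + 1 : ℕ) : ZMod D) = 0 := by rw [this]; exact ZMod.natCast_self D
      push_cast at h3
      linear_combination h3
    have : ((n : ℕ) : ZMod m × ZMod D) = (((n : ℕ) : ZMod m), ((n : ℕ) : ZMod D)) := rfl
    rw [this, e1, e2]
    simp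
  · have hDodd : Odd D := by
      obtain ⟨i, hi⟩ := hmodd
      exact ⟨i - 1, by omega⟩
    refine ⟨hmodd.mul hDodd, n, hn, Or.inl ?_⟩
    apply E.injective
    rw [hkE, map_natCast]
    have e1 : ((n : ℕ) : ZMod m) = -1 := by
      have h3 : ((n + 1 : ℕ) : ZMod m) = 0 := by rw [h4]; exact ZMod.natCast_self m
      push_cast at h3
      linear_combination h3
    have e2 : ((n : ℕ) : ZMod D) = 1 := by
      have : n = D + 1 := by omega
      rw [this]
      push_cast
      rw [ZMod.natCast_self, zero_add]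
    have : ((n : ℕ) : ZMod m × ZMod D) = (((n : ℕ) : ZMod m), ((n : ℕ) : ZMod D)) := rfl
    rw [this, e1, e2]

theorem odd_order (hd : Odd d) (x : ZMod d) : Odd (addOrderOf x) := by
  apply hd.of_dvd_nat
  apply addOrderOf_dvd_of_nsmul_eq_zero
  rw [nsmul_eq_mul, ZMod.natCast_self, zero_mul]

/-- uniqueness of the involutive symmetry -/
theorem uniq (hd : Odd d) (hd3 : d ≠ 3)
    {ψ : ZMod d → ℂ} (hψ : Fid ψ) {k a b k' a' b' : ZMod d} {c c' : ℂ}
    (hs : Sym ψ k a b c) (hk1 : k ≠ 1) (hs' : Sym ψ k' a' b' c') (hk1' : k' ≠ 1) :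
    k' = k ∧ a' = a ∧ b' = b := by
  have hcomp : Sym ψ (k' * k) (k' * a + a') (b' * k + b) (c' * c * e (b' * a)) := by
    refine ⟨by linear_combination k * k * hs'.1 + hs.1, fun j => ?_⟩
    have e1 : k' * k * j + (k' * a + a') = k' * (k * j + a) + a' := by ring
    rw [e1, hs'.2 (k * j + a), hs.2 j]
    have e2 : e (b' * (k * j + a)) * e (b * j) = e (b' * a) * e ((b' * k + b) * j) := by
      rw [← Pool.Agent.R503.SIC.e_add, ← Pool.Agent.R503.SIC.e_add]; congr 1; ring
    linear_combination c' * c * ψ j * e2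
  obtain ⟨-, n, hn, hkn⟩ := dil hψ hs hk1 (odd_order hd _)
  obtain ⟨-, n', hn', hkn'⟩ := dil hψ hs' hk1' (odd_order hd _)
  have hnn : n' = n := by
    have : n' ^ 2 = n ^ 2 := by rw [hn, hn']
    exact Nat.pow_left_injective (by norm_num : 2 ≠ 0) this
  rw [hnn] at hkn'
  have hnd : (n : ZMod d) * n = 1 := by
    have : ((n ^ 2 : ℕ) : ZMod d) = ((d + 1 : ℕ) : ZMod d) := by rw [hn]
    push_cast at this
    rw [ZMod.natCast_self, zero_add] at this
    rw [← pow_two]; exact this
  have hd1 : d ≠ 1 := by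
    rintro rfl
    exact hk1 (Subsingleton.elim _ _)
  by_cases hkk : k' * k = 1
  · have hk'k : k' = k := by linear_combination k * hkk - k' * hs.1
    rw [hkk] at hcomp
    obtain ⟨h1, h2, -⟩ := Pool.Agent.R503.SIC.displ hψ hcomp
    obtain ⟨h3, h4, -⟩ := Pool.Agent.R503.SIC.displ hψ hs
    have h20 : IsUnit (2 : ZMod d) := by
      have : Nat.Coprime 2 d := (Nat.coprime_two_left).2 hd
      exact_mod_cast (ZMod.isUnit_iff_coprime 2 d).2 this
    rw [hk'k] at h1
    have h5 : 2 * (k * a + a') = 0 := by linear_combination h1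
    have h6 : 2 * (b' * k + b) = 0 := by linear_combination h2
    rw [h20.mul_right_eq_zero] at h5 h6
    refine ⟨hk'k, by linear_combination h5 - h3, ?_⟩
    have h7 : b' + b * k = 0 := by linear_combination k * h6 - b' * hs.1
    linear_combination h7 - h4
  · exfalso
    have hm1 : k' * k = -1 := by
      rcases hkn with h | h <;> rcases hkn' with h' | h'
      · exact absurd (by rw [h, h']; exact hnd) hkk
      · rw [h, h']; linear_combination -hnd
      · rw [h, h']; linear_combination -hnd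
      · exact absurd (by rw [h, h']; linear_combination hnd) hkk
    obtain ⟨-, n'', hn'', hkn''⟩ := dil hψ hcomp hkk (odd_order hd _)
    have hnn' : n'' = n := by
      have : n'' ^ 2 = n ^ 2 := by rw [hn, hn'']
      exact Nat.pow_left_injective (by norm_num : 2 ≠ 0) this
    rw [hnn', hm1] at hkn''
    have hn2 : 2 ≤ n := by
      by_contra h
      have : n ≤ 1 := by omega
      have : n ^ 2 ≤ 1 ^ 2 := Nat.pow_le_pow_left this 2
      have : 0 < d := hd.pos
      omega
    obtain ⟨i, rfl⟩ : ∃ i, n = i + 2 := ⟨n - 2, by omega⟩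
    have hdi : d = (i + 1) * (i + 3) := by nlinarith
    rcases hkn'' with h | h
    · -- `-1 = n`
      have h8 : ((i + 2 + 1 : ℕ) : ZMod d) = 0 := by push_cast at h ⊢; linear_combination -h
      have h9 := Nat.le_of_dvd (by omega) ((ZMod.natCast_eq_zero_iff _ _).1 h8)
      rw [hdi] at h9
      have hi : i = 0 := by
        by_contra hi
        have : 1 ≤ i := by omega
        nlinarith
      rw [hi] at hdi
      exact hd3 (by rw [hdi])
    · have h8 : ((i + 1 : ℕ) : ZMod d) = 0 := by push_cast at h ⊢; linear_combination h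
      have h9 := Nat.le_of_dvd (by omega) ((ZMod.natCast_eq_zero_iff _ _).1 h8)
      rw [hdi] at h9
      nlinarith

end Pool.Agent.U338.Inv
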